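import Pool.Agent.H620R2.GaugeR.Seq
import Pool.Agent.H620R2.GaugeR.R1
import Pool.Agent.H620R2.GaugeR.Base

/-!
# Task R2: polynomially many runs (helper591)
-/

namespace Pool.Agent.H620R2.Gauge

open Pool.Agent.NPC Finset

namespace R2

/-- The states of the loop: the input, a counter, the votes so far. -/
abbrev St : Type := List Bool × List Unit × List Bool

/-- decoding of a state -/
def dcd (s : List Bool) : St := (unbits St s).getD ([], [], [])

theorem dcd_bits (s : St) : dcd (bits s) = s := by
  unfold dcd
  rw [unbits_bits]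
  rfl

theorem poly_dcd : Poly dcd :=
  (Poly.optCases (o := unbits St) (g := fun _ => (([], [], []) : St)) (h := fun _ b => b)
    poly_unbits (NPC.Poly.const _) (Poly.snd Poly.id)).congr fun s => by
      unfold dcd
      cases unbits St s <;> rfl

theorem poly_bits {α β : Type} [TEnc α] [TEnc β] {f : α → β} (hf : Poly f) :
    Poly (fun a => bits (f a)) := by
  have h : Poly (fun b : β => bits b) := by
    obtain ⟨c, p, h⟩ := PC.rawIn
    exact ⟨c, p, fun a => h (bits a)⟩
  exact h.comp hf

theorem sz_units : ∀ l : List Unit, sz l = 2 * l.length + 1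
  | [] => by simp
  | a :: l => by rw [sz_list_cons, sz_units l, List.length_cons, sz_unit]; ring

end R2

/-- polynomially many runs -/
theorem IsFP.votes {A : Oracle} {V : List Bool → List Bool} (hV : IsFP A V) (T : Polynomial ℕ)
    {Q : ℕ × List Bool → List (List Bool)} (hQ : Poly Q)
    {W : (ℕ × List Bool) × List Bool → List Bool} (hW : Poly W)
    {H : List Bool × List Bool → List Bool} (hH : Poly H) :
    IsFP A (fun x => H (x, (List.range (T.eval x.length)).map
      (fun i => decide (V (W ((i, x), (Q (i, x)).map A)) = [true])))) := by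
  have h1 : Poly (fun s => (R2.dcd s).1) := Poly.fst R2.poly_dcd
  have h2 : Poly (fun s => (R2.dcd s).2.1) := Poly.fst (Poly.snd R2.poly_dcd)
  have h3 : Poly (fun s => (R2.dcd s).2.2) := Poly.snd (Poly.snd R2.poly_dcd)
  have hF : IsFP A (fun s => (Q ((R2.dcd s).2.1.length, (R2.dcd s).1)).map A) :=
    IsFP.tt (Q := fun s => Q ((R2.dcd s).2.1.length, (R2.dcd s).1)) (H := fun p => p.2)
      (hQ.comp (Poly.pair (Poly.length h2) h1)) (Poly.snd Poly.id)
  have hφ : Poly (fun p : List Bool × List Bool =>
      W (((R2.dcd p.1).2.1.length, (R2.dcd p.1).1), p.2)) :=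
    hW.comp (Poly.pair (Poly.pair (Poly.length (h2.comp (Poly.fst Poly.id)))
      (h1.comp (Poly.fst Poly.id))) (Poly.snd Poly.id))
  have hψ : Poly (fun p : List Bool × List Bool × List Bool =>
      bits (((R2.dcd p.1).1, (R2.dcd p.1).2.1 ++ [()],
        (R2.dcd p.1).2.2 ++ [decide (p.2.2 = [true])]) : R2.St)) :=
    R2.poly_bits (Poly.pair (h1.comp (Poly.fst Poly.id)) (Poly.pair
      (Poly.append (h2.comp (Poly.fst Poly.id)) (NPC.Poly.const _))
      (Poly.append (h3.comp (Poly.fst Poly.id))
        (Poly.cons (Poly.decide_eq (Poly.snd (Poly.snd Poly.id)) (NPC.Poly.const _))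
          (NPC.Poly.const [])))))
  have hS := IsFP.seq hF hV hφ hψ
  set S : List Bool → List Bool := fun s => bits (((R2.dcd s).1, (R2.dcd s).2.1 ++ [()],
    (R2.dcd s).2.2 ++ [decide (V (W (((R2.dcd s).2.1.length, (R2.dcd s).1),
      (Q ((R2.dcd s).2.1.length, (R2.dcd s).1)).map A)) = [true])]) : R2.St) with hSd
  have hit : ∀ (x : List Bool) (i : ℕ), S^[i] (bits ((x, [], []) : R2.St)) =
      bits ((x, List.replicate i (), (List.range i).map
        (fun i => decide (V (W ((i, x), (Q (i, x)).map A)) = [true]))) : R2.St) := by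
    intro x i
    induction i with
    | zero => rfl
    | succ i ih =>
      rw [Function.iterate_succ_apply', ih, hSd]
      simp only [R2.dcd_bits, List.length_replicate]
      rw [List.range_succ, List.map_append, List.replicate_succ']
      rfl
  have hL := IsFP.loop (A := A) (S := S) hS (g := fun x => bits ((x, [], []) : R2.St))
    (R2.poly_bits (Poly.pair Poly.id (NPC.Poly.const _))) T
    (Polynomial.C 4 * Polynomial.X + Polynomial.C 6 * T + Polynomial.C 5) (by
      intro x i hi
      rw [hit, bits_length, sz_pair, sz_pair, R2.sz_units, List.length_replicate]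
      have e1 := sz_listBool_le x
      have e2 := sz_listBool_le ((List.range i).map
        (fun i => decide (V (W ((i, x), (Q (i, x)).map A)) = [true])))
      rw [List.length_map, List.length_range] at e2
      simp only [Polynomial.eval_add, Polynomial.eval_mul, Polynomial.eval_C, Polynomial.eval_X]
      omega)
  have hR := IsFP.comp (IsFP.of_poly (F := fun s => H ((R2.dcd s).1, (R2.dcd s).2.2))
    (hH.comp (Poly.pair h1 h3))) hL
  refine (congrArg (IsFP A) (funext fun x => ?_)).mp hR
  simp only [hit, R2.dcd_bits]

end Pool.Agent.H620R2.Gauge
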