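import Pool.Agent.H620R2.GaugeR.Base
import Pool.Agent.H620R2.GaugeR.Seq

/-!
# Finite changes of a language; `P` is contained in `RP` and `RP` in `NP`
-/

namespace Pool.Agent.H620R2.Gauge

open Pool.Agent.NPC Pool.Agent.H622R2

theorem IsP.patch {A : Oracle} {L L' : Set (List Bool)} (h : IsP A L) (n₀ : ℕ)
    (hL : ∀ x : List Bool, n₀ ≤ x.length → (x ∈ L' ↔ x ∈ L)) : IsP A L' := by
  classical
  obtain ⟨V, hV, hVL⟩ := h
  have hfin : ({x : List Bool | x.length < n₀ ∧ x ∈ L'}).Finite :=
    (List.finite_length_lt Bool n₀).subset (fun x hx => hx.1)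
  set T : List (List Bool) := hfin.toFinset.toList with hT
  have hTmem : ∀ x, x ∈ T ↔ x.length < n₀ ∧ x ∈ L' := by
    intro x
    simp [hT]
  have hψ : Poly (fun p : List Bool × List Bool × List Bool =>
      if p.1.length < n₀ then
        (if p.1 ∈ T then [true] else ([] : List Bool)) else p.2.1) := by
    have h1 : Poly (fun p : List Bool × List Bool × List Bool => p.1) := Poly.fst Poly.id
    have h2 : Poly (fun p : List Bool × List Bool × List Bool => decide (p.1 ∈ T)) := by
      have h3 := Poly.decide_mem h1 (NPC.Poly.const (α := List Bool × List Bool × List Bool) T)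
      exact h3.congr fun p => decide_eq_decide.2 Iff.rfl
    exact Poly.ite (Poly.decide_lt (Poly.length h1) (NPC.Poly.const n₀))
      (Poly.ite h2 (NPC.Poly.const _) (NPC.Poly.const _))
      (Poly.fst (Poly.snd Poly.id))
  have hW := IsFP.seq (A := A) (F := V) (G := V) hV hV (φ := fun p => p.2)
    (ψ := fun p : List Bool × List Bool × List Bool =>
      if p.1.length < n₀ then
        (if p.1 ∈ T then [true] else ([] : List Bool)) else p.2.1)
    (Poly.snd Poly.id) hψ
  refine ⟨_, hW, fun x => ?_⟩
  change x ∈ L' ↔ (if x.length < n₀ then (if x ∈ T then [true] else ([] : List Bool)) else V x)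
    = [true]
  by_cases h1 : x.length < n₀
  · rw [if_pos h1]
    by_cases h2 : x ∈ T
    · rw [if_pos h2]
      exact ⟨fun _ => rfl, fun _ => ((hTmem x).1 h2).2⟩
    · rw [if_neg h2]
      refine ⟨fun h3 => absurd ((hTmem x).2 ⟨h1, h3⟩) h2, fun h3 => ?_⟩
      simp at h3
  · rw [if_neg h1, hL x (by omega), hVL x]

theorem IsP.isRP {A : Oracle} {L : Set (List Bool)} (h : IsP A L) : IsRP A L := by
  obtain ⟨V, hV, hVL⟩ := h
  have hF : Poly (fun y : List Bool => (unpair y).2) := Poly.snd poly_unpair
  refine ⟨fun y => V (unpair y).2, 0, IsFP.comp (F := fun y => (unpair y).2) hV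
    (IsFP.of_poly hF), fun x => ⟨fun hx => ?_, fun hx => ?_⟩⟩
  · have h1 : ∀ w : Fin ((0 : Polynomial ℕ).eval x.length) → Bool,
        V (unpair (pairBits (List.ofFn w) x)).2 = [true] := by
      intro w
      rw [unpair_pairBits]
      exact (hVL x).1 hx
    have h2 : Nat.card {w : Fin ((0 : Polynomial ℕ).eval x.length) → Bool //
        V (unpair (pairBits (List.ofFn w) x)).2 = [true]} = 1 := by
      rw [Nat.card_congr (Equiv.subtypeUnivEquiv h1)]
      simp
    unfold accPr
    simp only
    rw [h2]
    simp
    norm_num
  · have h2 : Nat.card {w : Fin ((0 : Polynomial ℕ).eval x.length) → Bool //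
        V (unpair (pairBits (List.ofFn w) x)).2 = [true]} = 0 := by
      rw [Nat.card_eq_zero]
      left
      refine ⟨fun w => ?_⟩
      have h3 := w.2
      rw [unpair_pairBits] at h3
      exact hx ((hVL x).2 h3)
    unfold accPr
    simp only
    rw [h2]
    simp

theorem IsRP.isNP {A : Oracle} {L : Set (List Bool)} (h : IsRP A L) : IsNP A L := by
  obtain ⟨V, p, hV, hVL⟩ := h
  have hψ : Poly (fun q : List Bool × List Bool × List Bool =>
      if (unpair q.1).1.length = p.eval (unpair q.1).2.length then q.2.1
        else ([] : List Bool)) := by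
    have h1 : Poly (fun q : List Bool × List Bool × List Bool => unpair q.1) :=
      poly_unpair.comp (Poly.fst Poly.id)
    exact Poly.ite (Poly.decide_eq (Poly.length (Poly.fst h1))
      ((UPoly.length (Poly.snd h1)).eval p).toPoly) (Poly.fst (Poly.snd Poly.id))
      (NPC.Poly.const _)
  have hW := IsFP.seq (A := A) (F := V) (G := V) hV hV (φ := fun p => p.2)
    (ψ := fun q : List Bool × List Bool × List Bool =>
      if (unpair q.1).1.length = p.eval (unpair q.1).2.length then q.2.1
        else ([] : List Bool))
    (Poly.snd Poly.id) hψ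
  refine ⟨_, p, hW, fun x => ⟨fun hx => ?_, ?_⟩⟩
  · have h1 := (hVL x).1 hx
    have h2 : 0 < Nat.card {w : Fin (p.eval x.length) → Bool //
        V (pairBits (List.ofFn w) x) = [true]} := by
      by_contra h3
      have h4 : Nat.card {w : Fin (p.eval x.length) → Bool //
        V (pairBits (List.ofFn w) x) = [true]} = 0 := by omega
      unfold accPr at h1
      rw [h4] at h1
      norm_num at h1
    rw [Nat.card_pos_iff] at h2
    obtain ⟨⟨w, hw⟩⟩ := h2.1
    refine ⟨List.ofFn w, by simp, ?_⟩
    change (if (unpair (pairBits (List.ofFn w) x)).1.length =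
      p.eval (unpair (pairBits (List.ofFn w) x)).2.length then V (pairBits (List.ofFn w) x)
        else ([] : List Bool)) = [true]
    rw [unpair_pairBits, if_pos (by simp)]
    exact hw
  · rintro ⟨w, hw1, hw2⟩
    change (if (unpair (pairBits w x)).1.length =
      p.eval (unpair (pairBits w x)).2.length then V (pairBits w x)
        else ([] : List Bool)) = [true] at hw2
    rw [unpair_pairBits] at hw2
    by_contra hx
    have h1 := (hVL x).2 hx
    by_cases h3 : w.length = p.eval x.length
    · rw [if_pos h3] at hw2
      unfold accPr at h1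
      rw [div_eq_zero_iff] at h1
      rcases h1 with h1 | h1
      · have h4 : Nat.card {w : Fin (p.eval x.length) → Bool //
          V (pairBits (List.ofFn w) x) = [true]} = 0 := by exact_mod_cast h1
        rw [Nat.card_eq_zero] at h4
        rcases h4 with h4 | h4
        · refine h4.false ⟨fun i => w.get (i.cast h3.symm), ?_⟩
          have h5 : List.ofFn (fun i : Fin (p.eval x.length) => w.get (i.cast h3.symm)) = w := by
            apply List.ext_getElem
            · simp [h3]
            · intro i h6 h7
              simp
          rw [h5]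
          exact hw2
        · exact (h4.not_finite inferInstance).elim
      · exact absurd h1 (by positivity)
    · rw [if_neg h3] at hw2
      simp at hw2

end Pool.Agent.H620R2.Gauge
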