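import Pool.Agent.H620R2.GaugeR.Base
import Pool.Agent.H620R2.GaugeR.Seq
import Pool.Agent.H622R2.CoNP
import Pool.Agent.H620R2.GaugeR.R2
import Pool.Agent.H620R2.GaugeR.R5

/-! Task R4: the sampling algorithm -/

namespace Pool.Agent.H620R2.Gauge

open Pool.Agent.NPC Finset H568R2

theorem r4_bitsOf (n k : ℕ) :
    bitsOf n k = (List.range n).map (fun i => (k.bits)[i]?.getD false) := by
  induction n generalizing k with
  | zero => rfl
  | succ n ih =>
    rw [bitsOf, List.range_succ_eq_map, List.map_cons, List.map_map, ih]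
    have key : ∀ i : ℕ, (k.bits)[i]?.getD false = k.testBit i := by
      intro i
      rw [Nat.testBit_eq_inth, List.getI_eq_getElem?_getD]
      rfl
    have key2 : ∀ i : ℕ, ((k / 2).bits)[i]?.getD false = (k / 2).testBit i := by
      intro i
      rw [Nat.testBit_eq_inth, List.getI_eq_getElem?_getD]
      rfl
    congr 1
    · rw [key, Nat.testBit_zero]
      rcases Nat.mod_two_eq_zero_or_one k with h | h <;> simp [h]
    · apply List.map_congr_left
      intro i _
      rw [key2, Function.comp_apply, key, Nat.testBit_succ]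

theorem r4_poly_bitsOf {α : Type} [TEnc α] {n k : α → ℕ} (hn : UPoly n) (hk : Poly k) :
    Poly (fun a => bitsOf (n a) (k a)) := by
  refine Poly.congr (f := fun a => (List.range (n a)).map
    (fun i => ((k a).bits).getD i false)) ?_ ?_
  · exact NPC.Poly.map (F := fun a i => ((k a).bits).getD i false) (UPoly.range hn)
      (Poly.getD (Poly.natBits (hk.comp (Poly.fst Poly.id))) (Poly.snd Poly.id)
        (NPC.Poly.const false))
  · intro a
    rw [r4_bitsOf]
    apply List.map_congr_left
    intro i _
    rw [List.getD_eq_getElem?_getD]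

theorem r4_poly_replicate {α : Type} [TEnc α] {n : α → ℕ} (hn : UPoly n) :
    Poly (fun a => List.replicate (n a) true) := by
  refine Poly.congr (f := fun a => (List.range (n a)).map (fun _ => true)) ?_ ?_
  · exact NPC.Poly.map (F := fun _ _ => true) (UPoly.range hn) (NPC.Poly.const true)
  · intro a
    rw [List.map_const', List.length_range]

theorem r4_poly_smp {α : Type} [TEnc α] {l n k : α → ℕ} (hl : UPoly l) (hn : UPoly n)
    (hk : Poly k) : Poly (fun a => smp (l a) (n a) (k a)) :=
  Poly.append (r4_poly_replicate (UPoly.add hl (UPoly.const 1))) (r4_poly_bitsOf hn hk)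

/-- the sampling algorithm -/
theorem exists_sampler {A : Oracle} {V : List Bool → List Bool} (hV : IsFP A V)
    (p l T : Polynomial ℕ) {L : Set (List Bool)} (n₀ : ℕ)
    (h : ∀ x : List Bool, n₀ ≤ x.length → (x ∈ L ↔ ∃ i < T.eval x.length,
      V (pairBits ((List.range (p.eval x.length)).map (fun t =>
        A (smp (l.eval x.length) x.length (i * p.eval x.length + t)))) x) = [true])) :
    IsP A L := by
  have hlen : UPoly (fun q : (ℕ × List Bool) × ℕ => q.1.2.length) :=
    UPoly.length (Poly.snd (Poly.fst Poly.id))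
  have hQ : Poly (fun q : ℕ × List Bool => (List.range (p.eval q.2.length)).map
      (fun t => smp (l.eval q.2.length) q.2.length (q.1 * p.eval q.2.length + t))) :=
    NPC.Poly.map (F := fun (q : ℕ × List Bool) (t : ℕ) =>
      smp (l.eval q.2.length) q.2.length (q.1 * p.eval q.2.length + t))
      (UPoly.range (UPoly.eval (UPoly.length (Poly.snd Poly.id)) p))
      (r4_poly_smp (UPoly.eval hlen l) hlen
        (Poly.add (Poly.mul (Poly.fst (Poly.fst Poly.id)) (UPoly.toPoly (UPoly.eval hlen p)))
          (Poly.snd Poly.id)))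
  have hW : Poly (fun q : (ℕ × List Bool) × List Bool => pairBits q.2 q.1.2) :=
    H622R2.poly_pairBits (Poly.snd Poly.id) (Poly.snd (Poly.fst Poly.id))
  have hH : Poly (fun q : List Bool × List Bool => [q.2.any id]) :=
    Poly.cons (Poly.any (p := fun _ b => id b) (Poly.snd Poly.id) (Poly.snd Poly.id))
      (NPC.Poly.const [])
  have h1 := IsFP.votes hV T hQ hW hH
  refine IsP.patch (L := {x | ([((List.range (T.eval x.length)).map
      (fun i => decide (V (pairBits (((List.range (p.eval x.length)).map
      (fun t => smp (l.eval x.length) x.length (i * p.eval x.length + t))).map A) x) =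
        [true]))).any id] : List Bool) = [true]}) ⟨_, h1, fun x => Iff.rfl⟩ n₀ ?_
  intro x hx
  rw [h x hx, Set.mem_setOf_eq, List.cons.injEq, List.any_eq_true]
  simp only [List.mem_map, List.mem_range, List.map_map, id_eq, and_true]
  constructor
  · rintro ⟨i, hi, hV⟩
    exact ⟨true, ⟨i, hi, decide_eq_true hV⟩, rfl⟩
  · rintro ⟨b, ⟨i, hi, hb⟩, hbt⟩
    rw [hbt] at hb
    exact ⟨i, hi, of_decide_eq_true hb⟩

end Pool.Agent.H620R2.Gauge
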