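import Pool.Agent.H620R2.GaugeR.Base
import Pool.Agent.H620R2.Gauge.S

/-!
# Choice of the inputs (task R11, by helper746)
-/

namespace Pool.Agent.H620R2.Gauge

open Pool.Agent.NPC Finset H568R2

namespace TR11

/-- the input with `i` ones and length `n` -/
def inp (i n : ℕ) : List Bool := List.replicate i true ++ List.replicate (n - i) false

theorem length_inp {i n : ℕ} (h : i ≤ n) : (inp i n).length = n := by
  simp [inp]; omega

theorem ones_inp (i n : ℕ) : ones (inp i n) = i := by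
  simp [inp, ones]

theorem kk_inp {i n : ℕ} (h : i ≤ n) : kk (inp i n) = (i + 2) * n.size + 4 := by
  unfold kk
  rw [ones_inp, length_inp h]

/-- a polynomial is bounded by its value at 1 times a power -/
theorem eval_le (P : Polynomial ℕ) (n : ℕ) (hn : 1 ≤ n) :
    P.eval n ≤ P.eval 1 * n ^ P.natDegree := by
  rw [Polynomial.eval_eq_sum_range, Polynomial.eval_eq_sum_range, Finset.sum_mul]
  refine Finset.sum_le_sum fun k hk => ?_
  rw [one_pow, mul_one]
  exact Nat.mul_le_mul_left _ (Nat.pow_le_pow_right hn (Nat.lt_succ_iff.1 (Finset.mem_range.1 hk)))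

theorem step (f : ℕ → ℝ) (hf : ¬ Cond1 f) (P : Polynomial ℕ) (m s : ℕ) :
    ∃ p : ℕ × ℕ, p.1 ≤ p.2 ∧ m ≤ p.2 ∧ 2 * P.eval p.2 ≤ 2 ^ ((p.1 + 2) * p.2.size + 4) ∧
      ∀ N' : ℕ, 2 ^ (2 * p.2) ≤ N' →
        (s : ℝ) + 2 ^ ((p.1 + 2) * p.2.size + 5) ≤ f N' := by
  set i := P.natDegree + 1 with hi
  -- threshold for `n`
  set n₀ := m + 2 + i + 2 * P.eval 1 + 2 ^ (i + 3) * (s + 2 ^ (i + 7)) with hn₀
  have hf' : ∃ N : ℕ, 2 ^ n₀ ≤ N ∧ ∀ N' ≥ N, (Real.logb 2 N) ^ (i + 3) < f N' := by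
    by_contra hcon
    push Not at hcon
    apply hf
    refine ⟨i + 3, ?_⟩
    filter_upwards [Filter.eventually_ge_atTop (2 ^ n₀)] with N hN
    obtain ⟨N', h1, h2⟩ := hcon N hN
    exact ⟨N', h1, h2⟩
  obtain ⟨N, hN, hNf⟩ := hf'
  set n := Nat.clog 2 N with hn
  have hN0 : 0 < N := lt_of_lt_of_le (by positivity) hN
  have hn₀n : n₀ ≤ n := by
    have := Nat.clog_mono_right 2 hN
    rwa [Nat.clog_pow 2 _ (by norm_num)] at this
  have hNn : N ≤ 2 ^ n := Nat.le_pow_clog (by norm_num) N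
  have hn1 : 2 ≤ n := by omega
  have hN1 : 1 < N := by
    have h1 : 2 ^ 1 ≤ 2 ^ n₀ := Nat.pow_le_pow_right (by norm_num) (by omega)
    omega
  have hNn' : 2 ^ (n - 1) < N := Nat.pow_pred_clog_lt_self (by norm_num) hN1
  have hlog : (n : ℝ) / 2 ≤ Real.logb 2 N := by
    have h1 : ((n - 1 : ℕ) : ℝ) ≤ Real.logb 2 N := by
      rw [Real.le_logb_iff_rpow_le (by norm_num) (by exact_mod_cast hN0), Real.rpow_natCast]
      exact_mod_cast hNn'.le
    have h2 : ((n - 1 : ℕ) : ℝ) = n - 1 := by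
      rw [Nat.cast_sub (by omega)]; simp
    have h3 : (2 : ℝ) ≤ n := by exact_mod_cast hn1
    linarith
  have hsz1 : n < 2 ^ n.size := Nat.lt_size_self n
  have hszpos : 1 ≤ n.size := Nat.size_pos.2 (by omega)
  have hsz2 : 2 ^ n.size ≤ 2 * n := by
    have h1 : 2 ^ (n.size - 1) ≤ n := Nat.lt_size.1 (by omega)
    calc 2 ^ n.size = 2 * 2 ^ (n.size - 1) := by
          rw [← pow_succ']; congr 1; omega
      _ ≤ _ := Nat.mul_le_mul_left _ h1
  refine ⟨(i, n), ?_, ?_, ?_, ?_⟩
  · simp only; omega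
  · simp only; omega
  · simp only
    calc 2 * P.eval n ≤ 2 * (P.eval 1 * n ^ P.natDegree) :=
          Nat.mul_le_mul_left _ (eval_le P n (by omega))
      _ = (2 * P.eval 1) * n ^ P.natDegree := by ring
      _ ≤ n * n ^ P.natDegree := Nat.mul_le_mul_right _ (by omega)
      _ = n ^ i := by rw [hi, pow_succ']
      _ ≤ (2 ^ n.size) ^ i := Nat.pow_le_pow_left hsz1.le _
      _ = 2 ^ (i * n.size) := by rw [← pow_mul, mul_comm]
      _ ≤ 2 ^ ((i + 2) * n.size + 4) := Nat.pow_le_pow_right (by norm_num) (by nlinarith)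
  · simp only
    intro N' hN'
    have hNN' : N ≤ N' := by
      calc N ≤ 2 ^ n := hNn
        _ ≤ 2 ^ (2 * n) := Nat.pow_le_pow_right (by norm_num) (by omega)
        _ ≤ N' := hN'
    have h1 := hNf N' hNN'
    have h2 : ((n : ℝ) / 2) ^ (i + 3) ≤ (Real.logb 2 N) ^ (i + 3) :=
      pow_le_pow_left₀ (by positivity) hlog _
    have h3 : 2 ^ ((i + 2) * n.size + 5) ≤ 2 ^ (i + 7) * n ^ (i + 2) := by
      calc 2 ^ ((i + 2) * n.size + 5) = 32 * (2 ^ n.size) ^ (i + 2) := by
            rw [← pow_mul, mul_comm n.size, pow_add]; ring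
        _ ≤ 32 * (2 * n) ^ (i + 2) := Nat.mul_le_mul_left _ (Nat.pow_le_pow_left hsz2 _)
        _ = 2 ^ (i + 7) * n ^ (i + 2) := by rw [mul_pow, pow_add 2 i 7, pow_add 2 i 2]; ring
    have h4 : 2 ^ (i + 3) * (s + 2 ^ (i + 7) * n ^ (i + 2)) ≤ n ^ (i + 3) := by
      have h5 : 1 ≤ n ^ (i + 2) := Nat.one_le_pow _ _ (by omega)
      calc 2 ^ (i + 3) * (s + 2 ^ (i + 7) * n ^ (i + 2))
          ≤ 2 ^ (i + 3) * (s * n ^ (i + 2) + 2 ^ (i + 7) * n ^ (i + 2)) := by
            refine Nat.mul_le_mul_left _ (Nat.add_le_add_right ?_ _)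
            exact Nat.le_mul_of_pos_right _ h5
        _ = (2 ^ (i + 3) * (s + 2 ^ (i + 7))) * n ^ (i + 2) := by ring
        _ ≤ n * n ^ (i + 2) := Nat.mul_le_mul_right _ (by omega)
        _ = n ^ (i + 3) := by rw [← pow_succ']
    have h6 : (2 : ℝ) ^ (i + 3) * (s + 2 ^ (i + 7) * n ^ (i + 2)) ≤ n ^ (i + 3) := by
      exact_mod_cast h4
    have h7 : (2 : ℝ) ^ ((i + 2) * n.size + 5) ≤ 2 ^ (i + 7) * n ^ (i + 2) := by
      exact_mod_cast h3
    have h8 : (s : ℝ) + 2 ^ (i + 7) * n ^ (i + 2) ≤ ((n : ℝ) / 2) ^ (i + 3) := by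
      rw [div_pow, le_div_iff₀ (by positivity)]
      linarith
    linarith

theorem card_block (x : List Bool) (N : ℕ) (T : Finset ℕ)
    (hT : ∀ i ∈ T, ∃ v : List Bool, v.length = kk x + 1 ∧ str i = pairBits x v) :
    T.card ≤ 2 ^ (kk x + 1) := by
  classical
  have h1 : T ⊆ (univ : Finset (Fin (kk x + 1) → Bool)).image
      (fun w => idx (pairBits x (List.ofFn w))) := by
    intro i hi
    obtain ⟨v, hv, hs⟩ := hT i hi
    refine Finset.mem_image.2 ⟨fun t => v[t.1]'(by omega), Finset.mem_univ _, ?_⟩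
    have : List.ofFn (fun t : Fin (kk x + 1) => v[t.1]'(by omega)) = v := by
      refine List.ext_getElem (by simp only [List.length_ofFn, hv]) fun k h1 h2 => ?_
      rw [List.getElem_ofFn]
    rw [this, ← hs, idx_str]
  calc T.card ≤ _ := Finset.card_le_card h1
    _ ≤ (univ : Finset (Fin (kk x + 1) → Bool)).card := Finset.card_image_le
    _ = 2 ^ (kk x + 1) := by simp

end TR11

open TR11

open Classical in
theorem choose_seq (f : ℕ → ℝ) (hf : ¬ Cond1 f) (P Q : ℕ → Polynomial ℕ) :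
    ∃ x : ℕ → List Bool, StrictMono (fun j => (x j).length) ∧
      (∀ j, 2 * (P j).eval (x j).length ≤ 2 ^ kk (x j)) ∧
      (∀ j, (Q j).eval (x j).length ≤ 2 * (x (j + 1)).length) ∧
      ∃ c : ℝ, ∀ N : ℕ,
        (((Finset.range N).filter (fun i => str i ∈ blkR x)).card : ℝ) ≤ f N + c := by
  choose g hg1 hg2 hg3 hg4 using fun q : Polynomial ℕ × ℕ × ℕ => step f hf q.1 q.2.1 q.2.2
  -- the sequence of the parameters, together with the sum of the former block sizes
  let σ : ℕ → (ℕ × ℕ) × ℕ := fun j => Nat.rec (g (P 0, 0, 0), 0)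
    (fun j st => (g (P (j + 1), max (st.1.2 + 1) ((Q j).eval st.1.2),
      st.2 + 2 ^ ((st.1.1 + 2) * st.1.2.size + 5)),
      st.2 + 2 ^ ((st.1.1 + 2) * st.1.2.size + 5))) j
  have hσ1 : ∀ j, (σ (j + 1)).1 = g (P (j + 1), max ((σ j).1.2 + 1) ((Q j).eval (σ j).1.2),
      (σ j).2 + 2 ^ (((σ j).1.1 + 2) * (σ j).1.2.size + 5)) := fun j => rfl
  have hσ2 : ∀ j, (σ (j + 1)).2 = (σ j).2 + 2 ^ (((σ j).1.1 + 2) * (σ j).1.2.size + 5) :=
    fun j => rfl
  have hσ0 : (σ 0).1 = g (P 0, 0, 0) := rfl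
  have hσ0' : (σ 0).2 = 0 := rfl
  have hin : ∀ j, (σ j).1.1 ≤ (σ j).1.2 := by
    intro j
    cases j with
    | zero => rw [hσ0]; exact hg1 _
    | succ j => rw [hσ1]; exact hg1 _
  have hnn : ∀ j, max ((σ j).1.2 + 1) ((Q j).eval (σ j).1.2) ≤ (σ (j + 1)).1.2 := by
    intro j
    rw [hσ1]
    exact hg2 (P (j + 1), max ((σ j).1.2 + 1) ((Q j).eval (σ j).1.2),
      (σ j).2 + 2 ^ (((σ j).1.1 + 2) * (σ j).1.2.size + 5))
  have hP : ∀ j, 2 * (P j).eval (σ j).1.2 ≤ 2 ^ (((σ j).1.1 + 2) * (σ j).1.2.size + 4) := by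
    intro j
    cases j with
    | zero => rw [hσ0]; exact hg3 (P 0, 0, 0)
    | succ j => 
      rw [hσ1]
      exact hg3 (P (j + 1), max ((σ j).1.2 + 1) ((Q j).eval (σ j).1.2),
        (σ j).2 + 2 ^ (((σ j).1.1 + 2) * (σ j).1.2.size + 5))
  have hfN : ∀ j, ∀ N' : ℕ, 2 ^ (2 * (σ j).1.2) ≤ N' →
      ((σ j).2 : ℝ) + 2 ^ (((σ j).1.1 + 2) * (σ j).1.2.size + 5) ≤ f N' := by
    intro j
    cases j with
    | zero => rw [hσ0, hσ0']; exact hg4 (P 0, 0, 0)
    | succ j => 
      rw [hσ1, hσ2]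
      exact hg4 (P (j + 1), max ((σ j).1.2 + 1) ((Q j).eval (σ j).1.2),
        (σ j).2 + 2 ^ (((σ j).1.1 + 2) * (σ j).1.2.size + 5))
  set x : ℕ → List Bool := fun j => inp (σ j).1.1 (σ j).1.2 with hx
  have hxl : ∀ j, (x j).length = (σ j).1.2 := fun j => length_inp (hin j)
  have hxk : ∀ j, kk (x j) = ((σ j).1.1 + 2) * (σ j).1.2.size + 4 := fun j => kk_inp (hin j)
  have hmono : StrictMono (fun j => (x j).length) := by
    refine strictMono_nat_of_lt_succ fun j => ?_
    rw [hxl j, hxl (j + 1)]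
    exact lt_of_lt_of_le (Nat.lt_succ_self _) ((le_max_left _ _).trans (hnn j))
  refine ⟨x, hmono, ?_, ?_, ?_⟩
  · intro j
    rw [hxl, hxk]
    exact hP j
  · intro j
    rw [hxl j, hxl (j + 1)]
    have := (le_max_right _ _).trans (hnn j)
    omega
  · -- the number of the indices
    have hcnt : ∀ J N : ℕ, N ≤ 2 ^ (2 * (x J).length) →
        ((Finset.range N).filter (fun i => str i ∈ blkR x)).card ≤ (σ J).2 := by
      intro J N hN
      have h1 : (Finset.range N).filter (fun i => str i ∈ blkR x) ⊆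
          (Finset.range J).biUnion (fun l => (Finset.range N).filter (fun i =>
            ∃ v : List Bool, v.length = kk (x l) + 1 ∧ str i = pairBits (x l) v)) := by
        intro i hi
        obtain ⟨hiN, l, v, hv, hs⟩ := Finset.mem_filter.1 hi
        refine Finset.mem_biUnion.2 ⟨l, ?_, Finset.mem_filter.2 ⟨hiN, v, hv, hs⟩⟩
        rw [Finset.mem_range]
        by_contra hl
        push Not at hl
        have h2 : (x J).length ≤ (x l).length := hmono.monotone hl
        have h3 := le_idx (str i)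
        rw [idx_str] at h3
        have h4 : 2 * (x l).length + 1 ≤ (str i).length := by
          rw [hs]
          simp only [pairBits, List.length_append, List.length_flatMap, List.length_cons,
            List.length_nil, List.map_const', List.sum_replicate, smul_eq_mul]
          omega
        have h5 : 2 ^ (2 * (x J).length + 1) ≤ 2 ^ (str i).length :=
          Nat.pow_le_pow_right (by norm_num) (by omega)
        have h6 : 1 ≤ 2 ^ (2 * (x J).length) := Nat.one_le_two_pow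
        rw [pow_succ] at h5
        have := Finset.mem_range.1 hiN
        omega
      have h2 : ∀ l ∈ Finset.range J, ((Finset.range N).filter (fun i =>
            ∃ v : List Bool, v.length = kk (x l) + 1 ∧ str i = pairBits (x l) v)).card ≤
          2 ^ (((σ l).1.1 + 2) * (σ l).1.2.size + 5) := by
        intro l _
        have := card_block (x l) N ((Finset.range N).filter (fun i =>
            ∃ v : List Bool, v.length = kk (x l) + 1 ∧ str i = pairBits (x l) v))
            fun i hi => (Finset.mem_filter.1 hi).2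
        calc _ ≤ 2 ^ (kk (x l) + 1) := this
          _ = _ := by rw [hxk l]
      have h3 : ∑ l ∈ Finset.range J, 2 ^ (((σ l).1.1 + 2) * (σ l).1.2.size + 5) = (σ J).2 := by
        clear hN h1 h2
        induction J with
        | zero => simp [hσ0']
        | succ J ih => rw [Finset.sum_range_succ, ih, hσ2]
      calc _ ≤ _ := Finset.card_le_card h1
        _ ≤ _ := Finset.card_biUnion_le
        _ ≤ _ := Finset.sum_le_sum h2
        _ = _ := h3
    refine ⟨∑ N ∈ Finset.range (2 ^ (2 * (x 0).length) + 1), |f N|, ?_⟩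
    intro N
    by_cases hN : N ≤ 2 ^ (2 * (x 0).length)
    · have h1 := hcnt 0 N hN
      rw [hσ0'] at h1
      have h2 : |f N| ≤ ∑ N ∈ Finset.range (2 ^ (2 * (x 0).length) + 1), |f N| :=
        Finset.single_le_sum (f := fun N => |f N|) (fun _ _ => abs_nonneg _)
          (Finset.mem_range.2 (by omega))
      have h3 : (((Finset.range N).filter (fun i => str i ∈ blkR x)).card : ℝ) ≤ 0 := by
        exact_mod_cast h1
      have h4 := neg_abs_le (f N)
      linarith
    · push Not at hN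
      have hex : ∃ J, N ≤ 2 ^ (2 * (x J).length) := by
        refine ⟨N, ?_⟩
        have h1 : N ≤ (x N).length := hmono.id_le N
        calc N ≤ 2 ^ N := Nat.lt_two_pow_self.le
          _ ≤ _ := Nat.pow_le_pow_right (by norm_num) (by omega)
      have hJ := Nat.find_spec hex
      have hJ0 : Nat.find hex ≠ 0 := by
        intro h0
        rw [h0] at hJ
        omega
      obtain ⟨J, hJ'⟩ := Nat.exists_eq_succ_of_ne_zero hJ0
      have hJm : 2 ^ (2 * (x J).length) < N := by
        have := Nat.find_min hex (m := J) (by omega)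
        omega
      have h1 := hcnt (J + 1) N (by rw [hJ'] at hJ; exact hJ)
      have h2 := hfN J N (by rw [← hxl]; exact hJm.le)
      rw [hσ2] at h1
      have h3 : (((Finset.range N).filter (fun i => str i ∈ blkR x)).card : ℝ) ≤
          ((σ J).2 : ℝ) + 2 ^ (((σ J).1.1 + 2) * (σ J).1.2.size + 5) := by exact_mod_cast h1
      have h4 : (0 : ℝ) ≤ ∑ N ∈ Finset.range (2 ^ (2 * (x 0).length) + 1), |f N| :=
        Finset.sum_nonneg fun _ _ => abs_nonneg _
      linarith

end Pool.Agent.H620R2.Gauge
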