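import Pool.Agent.H620R2.GaugeR.Base

/-! # Task R7: asymptotics -/

namespace Pool.Agent.H620R2.Gauge

open Pool.Agent.NPC Finset H568R2

private lemma R7_poly_le (P : Polynomial ℕ) (n : ℕ) (hn : 1 ≤ n) :
    P.eval n ≤ P.eval 1 * n ^ P.natDegree := by
  rw [Polynomial.eval_eq_sum_range, Polynomial.eval_eq_sum_range, Finset.sum_mul]
  apply Finset.sum_le_sum
  intro i hi
  rw [one_pow, mul_one]
  apply Nat.mul_le_mul_left
  exact Nat.pow_le_pow_right hn (by have := Finset.mem_range.1 hi; omega)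

private lemma R7_exp (P : Polynomial ℕ) : ∀ᶠ n : ℕ in Filter.atTop, P.eval n ≤ 2 ^ n := by
  have h1 := tendsto_pow_const_div_const_pow_of_one_lt P.natDegree (r := (2 : ℝ)) (by norm_num)
  have hpos : (0 : ℝ) < 1 / ((P.eval 1 : ℕ) + 1) := by positivity
  filter_upwards [h1.eventually (eventually_lt_nhds hpos), Filter.eventually_ge_atTop 1] with n hn hn1
  rw [div_lt_div_iff₀ (by positivity) (by positivity), one_mul] at hn
  refine (R7_poly_le P n hn1).trans ?_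
  have h2 : ((P.eval 1 * n ^ P.natDegree : ℕ) : ℝ) ≤ ((2 ^ n : ℕ) : ℝ) := by
    push_cast
    have h3 : (0 : ℝ) ≤ (n : ℝ) ^ P.natDegree := by positivity
    nlinarith
  exact_mod_cast h2

theorem asymR (C : ℕ) (Λ p : Polynomial ℕ) (hΛ : ∀ n, n ≤ Λ.eval n) (f : ℕ → ℝ)
    (hf : ∀ᶠ N : ℕ in Filter.atTop, ∃ N' ≥ N, f N' ≤ (Real.logb 2 N) ^ C) :
    ∃ (T : Polynomial ℕ) (n₀ : ℕ), ∀ n ≥ n₀, T.eval n * p.eval n ≤ 2 ^ n ∧
      ∃ N' : ℕ, 2 ^ Λ.eval n ≤ N' ∧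
        (2 : ℝ) ^ n * (1 / 2) ^ T.eval n * 2 ^ f N' ≤ (1 / 2) ^ n := by
  obtain ⟨N₀, hN₀⟩ := Filter.eventually_atTop.1 hf
  set T : Polynomial ℕ := Λ ^ C + 2 * Polynomial.X with hT
  obtain ⟨n₁, hn₁⟩ := Filter.eventually_atTop.1 (R7_exp (T * p))
  refine ⟨T, max n₁ N₀, ?_⟩
  intro n hn
  have hn1 : n₁ ≤ n := (le_max_left _ _).trans hn
  have hn2 : N₀ ≤ n := (le_max_right _ _).trans hn
  refine ⟨?_, ?_⟩
  · have := hn₁ n hn1
    rwa [Polynomial.eval_mul] at this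
  have hN : N₀ ≤ 2 ^ Λ.eval n := by
    calc N₀ ≤ n := hn2
      _ ≤ Λ.eval n := hΛ n
      _ ≤ 2 ^ Λ.eval n := Nat.lt_two_pow_self.le
  obtain ⟨N', hN', hfN⟩ := hN₀ _ hN
  refine ⟨N', hN', ?_⟩
  have hlog : Real.logb 2 ((2 ^ Λ.eval n : ℕ) : ℝ) = (Λ.eval n : ℕ) := by
    push_cast
    rw [Real.logb_pow, Real.logb_self_eq_one (by norm_num), mul_one]
  rw [hlog] at hfN
  have hTe : T.eval n = (Λ.eval n) ^ C + 2 * n := by
    simp [hT]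
  have h2 : (2 : ℝ) ^ f N' ≤ 2 ^ ((Λ.eval n) ^ C) := by
    calc (2 : ℝ) ^ f N' ≤ (2 : ℝ) ^ (((Λ.eval n : ℕ) : ℝ) ^ C) :=
          Real.rpow_le_rpow_of_exponent_le (by norm_num) hfN
      _ = 2 ^ ((Λ.eval n) ^ C) := by
          rw [← Nat.cast_pow, Real.rpow_natCast]
  calc (2 : ℝ) ^ n * (1 / 2) ^ T.eval n * 2 ^ f N'
      ≤ (2 : ℝ) ^ n * (1 / 2) ^ T.eval n * 2 ^ ((Λ.eval n) ^ C) := by gcongr
    _ = (1 / 2) ^ n := by
        rw [hTe, pow_add, two_mul, pow_add]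
        have e1 : (2 : ℝ) ^ n * (1 / 2) ^ n = 1 := by rw [← mul_pow]; norm_num
        have e2 : (2 : ℝ) ^ (Λ.eval n ^ C) * (1 / 2) ^ (Λ.eval n ^ C) = 1 := by
          rw [← mul_pow]; norm_num
        calc (2 : ℝ) ^ n * ((1 / 2) ^ (Λ.eval n ^ C) * ((1 / 2) ^ n * (1 / 2) ^ n)) *
              2 ^ (Λ.eval n ^ C)
            = ((2 : ℝ) ^ n * (1 / 2) ^ n) * ((2 : ℝ) ^ (Λ.eval n ^ C) *
                (1 / 2) ^ (Λ.eval n ^ C)) * (1 / 2) ^ n := by ring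
          _ = (1 / 2) ^ n := by rw [e1, e2]; ring

end Pool.Agent.H620R2.Gauge
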