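import Pool.Agent.H620R2.GaugeR.Base
import Pool.Agent.H620R2.GaugeR.Seq
import Pool.Agent.H620R2.GaugeR.R2

/-!
# Random strings can be replaced by advice (task R6, helper830)
-/

namespace Pool.Agent.H620R2.Gauge

open Pool.Agent.NPC Finset H568R2 Pool.Agent.H676 Pool.Agent.H622R2

namespace R6

/-- the counting argument -/
theorem count {n : ℕ} {Ω : Type*} [Fintype Ω] [Nonempty Ω] [DecidableEq Ω]
    (S : (Fin n → Bool) → Finset Ω) (X : Finset (Fin n → Bool))
    (hS : ∀ x ∈ X, 2 * (S x).card ≤ Fintype.card Ω) :
    ∃ g : Fin (n + 1) → Ω, ∀ x ∈ X, ∃ i, g i ∉ S x := by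
  by_contra hcon
  push Not at hcon
  have h1 : (Finset.univ : Finset (Fin (n + 1) → Ω)) ⊆
      X.biUnion (fun x => Fintype.piFinset (fun _ => S x)) := by
    intro g _
    obtain ⟨x, hx, h⟩ := hcon g
    exact Finset.mem_biUnion.2 ⟨x, hx, Fintype.mem_piFinset.2 h⟩
  have h2 := (Finset.card_le_card h1).trans Finset.card_biUnion_le
  have h3 : Fintype.card Ω ^ (n + 1) ≤ ∑ x ∈ X, (S x).card ^ (n + 1) := by
    simpa using h2
  have h4 : 2 ^ (n + 1) * Fintype.card Ω ^ (n + 1) ≤ 2 ^ n * Fintype.card Ω ^ (n + 1) := by
    calc 2 ^ (n + 1) * Fintype.card Ω ^ (n + 1)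
        ≤ 2 ^ (n + 1) * ∑ x ∈ X, (S x).card ^ (n + 1) := Nat.mul_le_mul_left _ h3
      _ = ∑ x ∈ X, (2 * (S x).card) ^ (n + 1) := by
          rw [Finset.mul_sum]
          exact Finset.sum_congr rfl fun x _ => by rw [mul_pow]
      _ ≤ ∑ _x ∈ X, Fintype.card Ω ^ (n + 1) :=
          Finset.sum_le_sum fun x hx => Nat.pow_le_pow_left (hS x hx) _
      _ = X.card * Fintype.card Ω ^ (n + 1) := by simp
      _ ≤ 2 ^ n * Fintype.card Ω ^ (n + 1) := by
          apply Nat.mul_le_mul_right
          have := Finset.card_le_univ X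
          simpa using this
  have h5 : 0 < Fintype.card Ω ^ (n + 1) := pow_pos Fintype.card_pos _
  have h6 := Nat.le_of_mul_le_mul_right h4 h5
  rw [pow_succ] at h6
  have h7 : 0 < 2 ^ n := by positivity
  omega

/-- the good lists of random strings -/
theorem exists_list {V : List Bool → List Bool} {m n : ℕ} {L : Set (List Bool)}
    (h : ∀ x : List Bool, x.length = n → x ∈ L → 1 / 2 ≤ accPr V m x) :
    ∃ l : List (List Bool), l.length = n + 1 ∧ (∀ w ∈ l, w.length = m) ∧
      ∀ x : List Bool, x.length = n → x ∈ L → ∃ w ∈ l, V (pairBits w x) = [true] := by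
  classical
  set S : (Fin n → Bool) → Finset (Fin m → Bool) := fun x =>
    Finset.univ.filter (fun w => ¬ V (pairBits (List.ofFn w) (List.ofFn x)) = [true]) with hSd
  obtain ⟨g, hg⟩ := count S (Finset.univ.filter (fun x => List.ofFn x ∈ L)) (by
    intro x hx
    have hx' : List.ofFn x ∈ L := (Finset.mem_filter.1 hx).2
    have h1 := h (List.ofFn x) (by simp) hx'
    unfold accPr at h1
    rw [Nat.card_eq_fintype_card, Fintype.card_subtype] at h1
    have h2 := Finset.card_filter_add_card_filter_not (s := (Finset.univ : Finset (Fin m → Bool)))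
      (fun w => V (pairBits (List.ofFn w) (List.ofFn x)) = [true])
    have h3 : (Finset.univ : Finset (Fin m → Bool)).card = 2 ^ m := by simp
    have h4 : (2 : ℝ) ^ m ≤ 2 * ((Finset.univ.filter (fun w : Fin m → Bool =>
        V (pairBits (List.ofFn w) (List.ofFn x)) = [true])).card : ℝ) := by
      rw [le_div_iff₀ (by positivity)] at h1
      linarith
    have h5 : 2 ^ m ≤ 2 * (Finset.univ.filter (fun w : Fin m → Bool =>
        V (pairBits (List.ofFn w) (List.ofFn x)) = [true])).card := by
      exact_mod_cast h4
    have h6 : Fintype.card (Fin m → Bool) = 2 ^ m := by simp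
    rw [h6]
    rw [h3] at h2
    change 2 * (Finset.univ.filter (fun w : Fin m → Bool =>
      ¬ V (pairBits (List.ofFn w) (List.ofFn x)) = [true])).card ≤ 2 ^ m
    omega)
  refine ⟨List.ofFn (fun i => List.ofFn (g i)), by simp, ?_, ?_⟩
  · intro w hw
    obtain ⟨i, rfl⟩ := (List.mem_ofFn' _ _).1 hw
    simp
  · intro x hx hxL
    subst hx
    have h1 : List.ofFn (fun i : Fin x.length => x[i]) = x := List.ofFn_getElem
    obtain ⟨i, hi⟩ := hg (fun i => x[i]) (Finset.mem_filter.2 ⟨Finset.mem_univ _, by
      rw [h1]; exact hxL⟩)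
    refine ⟨List.ofFn (g i), (List.mem_ofFn' _ _).2 ⟨i, rfl⟩, ?_⟩
    rw [hSd] at hi
    simp only [Finset.mem_filter, Finset.mem_univ, true_and, not_not] at hi
    rwa [h1] at hi

/-- the list given by the advice -/
def lst (y : List Bool) : List (List Bool) :=
  (unbits (List (List Bool)) (unpair y).2).getD []

theorem poly_lst : Poly lst := by
  have h1 : Poly (fun y => unbits (List (List Bool)) (unpair y).2) :=
    poly_unbits.comp (Poly.snd poly_unpair)
  refine (Poly.optCases (g := fun _ => ([] : List (List Bool))) (h := fun _ w => w) h1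
    (NPC.Poly.const []) (Poly.snd Poly.id)).congr fun y => ?_
  unfold lst
  cases unbits (List (List Bool)) (unpair y).2 <;> rfl

theorem lst_pair (x : List Bool) (l : List (List Bool)) : lst (pairBits x (bits l)) = l := by
  unfold lst
  rw [unpair_pairBits, unbits_bits]
  rfl

/-- the input of the verifier -/
def inpV (q : (ℕ × List Bool) × List Bool) : List Bool :=
  pairBits ((lst q.1.2)[q.1.1]?.getD []) (unpair q.1.2).1

theorem poly_inpV : Poly inpV := by
  have h1 : Poly (fun q : (ℕ × List Bool) × List Bool => lst q.1.2) :=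
    poly_lst.comp (Poly.snd (Poly.fst Poly.id))
  have h2 : Poly (fun q : (ℕ × List Bool) × List Bool => (lst q.1.2)[q.1.1]?) :=
    Poly.getElem? h1 (Poly.fst (Poly.fst Poly.id))
  have h3 : Poly (fun q : (ℕ × List Bool) × List Bool => (lst q.1.2)[q.1.1]?.getD []) := by
    refine (Poly.optCases (g := fun _ => ([] : List Bool)) (h := fun _ w => w) h2
      (NPC.Poly.const []) (Poly.snd Poly.id)).congr fun q => ?_
    cases (lst q.1.2)[q.1.1]? <;> rfl
  exact poly_pairBits h3 (Poly.fst (poly_unpair.comp (Poly.snd (Poly.fst Poly.id))))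

/-- the evaluation of the votes -/
def evV (q : List Bool × List Bool) : List Bool :=
  [((lst q.1).zip q.2).any (fun r => r.2)]

theorem poly_evV : Poly evV :=
  Poly.cons (Poly.any (p := fun _ (r : List Bool × Bool) => r.2)
    (Poly.zip (poly_lst.comp (Poly.fst Poly.id)) (Poly.snd Poly.id))
    (Poly.snd (Poly.snd Poly.id))) (NPC.Poly.const [])

end R6

open R6 in
/-- random strings can be replaced by advice -/
theorem IsRP.withAdvice {A : Oracle} {L : Set (List Bool)} (h : IsRP A L) :
    WithAdvice (IsP A) L := by
  obtain ⟨V, p, hV, hL⟩ := h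
  have hex : ∀ n : ℕ, ∃ l : List (List Bool), l.length = n + 1 ∧
      (∀ w ∈ l, w.length = p.eval n) ∧
      ∀ x : List Bool, x.length = n → x ∈ L → ∃ w ∈ l, V (pairBits w x) = [true] := by
    intro n
    refine exists_list fun x hx hxL => ?_
    have := (hL x).1 hxL
    rwa [hx] at this
  choose l hl1 hl2 hl3 using hex
  set F : List Bool → List Bool := fun y => evV (y, (List.range ((Polynomial.X +
    Polynomial.C 1 : Polynomial ℕ).eval y.length)).map
      (fun i => decide (V (inpV ((i, y), (([] : List (List Bool))).map A)) = [true]))) with hF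
  have hFP : IsFP A F := IsFP.votes hV (Polynomial.X + Polynomial.C 1)
    (Q := fun _ => []) (NPC.Poly.const []) poly_inpV poly_evV
  refine ⟨{y | F y = [true]}, fun n => bits (l n),
    (Polynomial.X + Polynomial.C 1) * (Polynomial.C 4 * p + Polynomial.C 3) + Polynomial.C 1,
    ⟨F, hFP, fun y => Iff.rfl⟩, fun n => ?_, fun x => ?_⟩
  · rw [bits_length]
    have h1 := sz_le_length_mul (l n) (4 * p.eval n + 1) (fun w hw => by
      have h2 := sz_listBool_le w
      rw [hl2 n w hw] at h2
      exact h2)
    rw [hl1] at h1
    simp only [Polynomial.eval_add, Polynomial.eval_mul, Polynomial.eval_C, Polynomial.eval_X]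
    nlinarith [h1]
  · rw [Set.mem_ofPred_eq]
    have hlen : (pairBits x (bits (l x.length))).length =
        2 * x.length + (bits (l x.length)).length + 1 := A2.length_pairBits _ _
    have key : F (pairBits x (bits (l x.length))) = [true] ↔
        ∃ w ∈ l x.length, V (pairBits w x) = [true] := by
      rw [hF]
      simp only [evV, lst_pair, List.cons.injEq, and_true, List.any_eq_true]
      constructor
      · rintro ⟨⟨w, b⟩, hm, hb⟩
        obtain ⟨i, hi, he⟩ := List.mem_iff_getElem.1 hm
        simp only [List.length_zip, List.length_map, List.length_range, lt_min_iff] at hi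
        rw [List.getElem_zip] at he
        simp only [List.getElem_map, List.getElem_range, Prod.mk.injEq] at he
        obtain ⟨he1, he2⟩ := he
        simp only at hb
        rw [hb] at he2
        refine ⟨w, he1 ▸ List.getElem_mem hi.1, ?_⟩
        have h3 := of_decide_eq_true he2
        unfold inpV at h3
        simp only [lst_pair, unpair_pairBits, List.getElem?_eq_getElem hi.1,
          Option.getD_some] at h3
        rwa [he1] at h3
      · rintro ⟨w, hw, hwV⟩
        obtain ⟨i, hi, he⟩ := List.mem_iff_getElem.1 hw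
        refine ⟨(w, true), ?_, rfl⟩
        rw [List.mem_iff_getElem]
        refine ⟨i, ?_, ?_⟩
        · simp only [List.length_zip, List.length_map, List.length_range, lt_min_iff]
          refine ⟨hi, ?_⟩
          simp only [Polynomial.eval_add, Polynomial.eval_C, Polynomial.eval_X]
          rw [hl1] at hi
          omega
        · rw [List.getElem_zip]
          simp only [List.getElem_map, List.getElem_range, Prod.mk.injEq]
          refine ⟨he, ?_⟩
          apply decide_eq_true
          unfold inpV
          simp only [lst_pair, unpair_pairBits, List.getElem?_eq_getElem hi, Option.getD_some]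
          rw [he]
          exact hwV
    rw [key]
    constructor
    · intro hx
      exact hl3 x.length x rfl hx
    · rintro ⟨w, hw, hwV⟩
      by_contra hx
      have h1 := (hL x).2 hx
      unfold accPr at h1
      rw [div_eq_zero_iff] at h1
      rcases h1 with h1 | h1
      · have h2 : Nat.card {w : Fin (p.eval x.length) → Bool //
            V (pairBits (List.ofFn w) x) = [true]} = 0 := by exact_mod_cast h1
        rw [Finite.card_eq_zero_iff] at h2
        have h3 := hl2 _ w hw
        have h4 : ∃ u : Fin (p.eval x.length) → Bool, List.ofFn u = w := by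
          rw [← h3]
          exact ⟨fun i => w[i], List.ofFn_getElem⟩
        obtain ⟨u, hu⟩ := h4
        exact h2.elim ⟨u, by rw [hu]; exact hwV⟩
      · exact absurd h1 (by positivity)

end Pool.Agent.H620R2.Gauge
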