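import Pool.Agent.H620R2.GaugeR.Base
import Pool.Agent.H620R2.GaugeR.Seq

/-!
# Task R12: the language is in `RP` (helper943)
-/

namespace Pool.Agent.H620R2.Gauge

open Pool.Agent.NPC Finset

namespace R12

theorem map_fst_zip_take {α β : Type} : ∀ (l : List α) (l' : List β),
    (l.zip l').map Prod.fst = l.take l'.length
  | [], l' => by simp
  | a :: l, [] => by simp
  | a :: l, b :: l' => by simp [map_fst_zip_take l l']

theorem poly_take {α β : Type} [TEnc α] [TEnc β] {l : α → List β} {n : α → ℕ} (hl : Poly l)
    (hn : UPoly n) : Poly (fun a => (l a).take (n a)) := by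
  have h1 : Poly (fun a => (l a).zip (List.replicate (n a) ())) := Poly.zip hl hn
  refine (NPC.Poly.map (F := fun _ p => p.1) h1 (Poly.fst (Poly.snd Poly.id))).congr fun a => ?_
  have := map_fst_zip_take (l a) (List.replicate (n a) ())
  rw [List.length_replicate] at this
  exact this

theorem upoly_ones : UPoly (fun x : List Bool => ones x) := by
  unfold ones
  exact UPoly.length (Poly.filter (p := fun _ b => b) Poly.id (Poly.snd Poly.id))

theorem upoly_kk : UPoly (fun x : List Bool => kk x) := by
  have h1 : UPoly (fun x : List Bool => x.length.size) := by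
    have h2 : UPoly (fun x : List Bool => x.length.bits.length) :=
      UPoly.length (Poly.natBits (Poly.length Poly.id))
    refine Poly.congr h2 fun x => ?_
    simp only [Nat.size_eq_bits_len]
  unfold kk
  exact ((upoly_ones.add (UPoly.const 2)).mul h1).add (UPoly.const 4)

/-- the bound for the length of the random string -/
noncomputable def pp : Polynomial ℕ := (Polynomial.X + Polynomial.C 2) * Polynomial.X + Polynomial.C 4

theorem kk_le (x : List Bool) : kk x ≤ pp.eval x.length := by
  unfold kk pp
  simp only [Polynomial.eval_add, Polynomial.eval_mul, Polynomial.eval_X, Polynomial.eval_C]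
  have h1 : ones x ≤ x.length := by
    unfold ones
    exact List.length_filter_le _ _
  have h2 : x.length.size ≤ x.length := Nat.size_le.2 Nat.lt_two_pow_self
  have h3 : (ones x + 2) * x.length.size ≤ (x.length + 2) * x.length :=
    Nat.mul_le_mul (by omega) h2
  omega

/-- the questions -/
def Q (y : List Bool) : List (List Bool) :=
  [pairBits (unpair y).2 (false :: (unpair y).1.take (kk (unpair y).2)),
    pairBits (unpair y).2 (true :: (unpair y).1.take (kk (unpair y).2))]

/-- the output -/
def H (p : List Bool × List Bool) : List Bool :=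
  if p.2.any (fun b => b) = true then [true] else []

/-- the algorithm -/
def V (A : Oracle) (y : List Bool) : List Bool := H (y, (Q y).map A)

theorem poly_Q : Poly Q := by
  have hw : Poly (fun y => (unpair y).1) := Poly.fst poly_unpair
  have hx : Poly (fun y => (unpair y).2) := Poly.snd poly_unpair
  have ht : Poly (fun y => (unpair y).1.take (kk (unpair y).2)) :=
    poly_take hw (upoly_kk.comp hx)
  exact Poly.cons (H622R2.poly_pairBits hx (Poly.cons (NPC.Poly.const false) ht))
    (Poly.cons (H622R2.poly_pairBits hx (Poly.cons (NPC.Poly.const true) ht))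
      (NPC.Poly.const []))

theorem poly_H : Poly H := by
  unfold H
  exact Poly.ite (Poly.decide_bool (Poly.any (p := fun _ b => b) (Poly.snd Poly.id)
    (Poly.snd Poly.id))) (NPC.Poly.const _) (NPC.Poly.const _)

theorem V_iff (A : Oracle) (w x : List Bool) :
    V A (pairBits w x) = [true] ↔ GoodW A x (w.take (kk x)) := by
  have h1 : Q (pairBits w x) = [pairBits x (false :: w.take (kk x)),
      pairBits x (true :: w.take (kk x))] := by
    unfold Q
    rw [unpair_pairBits]
  unfold V H GoodW
  rw [h1]
  simp only [List.map_cons, List.map_nil, List.any_cons, List.any_nil, Bool.or_false,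
    Bool.or_eq_true]
  constructor
  · intro h
    by_contra hc
    rw [if_neg hc] at h
    exact absurd h (by simp)
  · intro h
    rw [if_pos h]

theorem count (P : List Bool → Prop) (K d : ℕ) :
    Nat.card {w : Fin K → Bool // P (List.ofFn w)} * 2 ^ d ≤
      Nat.card {w : Fin (K + d) → Bool // P ((List.ofFn w).take K)} := by
  have h1 : Nat.card ({w : Fin K → Bool // P (List.ofFn w)} × (Fin d → Bool)) =
      Nat.card {w : Fin K → Bool // P (List.ofFn w)} * 2 ^ d := by
    rw [Nat.card_prod]
    congr 1
    rw [Nat.card_eq_fintype_card, Fintype.card_fun, Fintype.card_bool, Fintype.card_fin]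
  rw [← h1]
  let f : ({w : Fin K → Bool // P (List.ofFn w)} × (Fin d → Bool)) →
      {w : Fin (K + d) → Bool // P ((List.ofFn w).take K)} := fun p =>
    ⟨Fin.append p.1.1 p.2, by
      rw [List.ofFn_fin_append, List.take_left' (List.length_ofFn)]
      exact p.1.2⟩
  apply Nat.card_le_card_of_injective f
  intro p q h
  have h2 : Fin.append p.1.1 p.2 = Fin.append q.1.1 q.2 := congrArg Subtype.val h
  have h3 : ((p.1.1, p.2) : (Fin K → Bool) × (Fin d → Bool)) = (q.1.1, q.2) :=
    (Fin.appendEquiv K d).injective h2
  rw [Prod.mk.injEq] at h3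
  exact Prod.ext (Subtype.ext h3.1) h3.2

end R12

open R12 in
theorem rpLang_rp {A : Oracle} (h : ∀ x, x ∈ rpLang A → HalfGood A x) : IsRP A (rpLang A) := by
  refine ⟨V A, pp, IsFP.tt poly_Q poly_H, fun x => ⟨fun hx => ?_, fun hx => ?_⟩⟩
  · have h1 := h x hx
    unfold HalfGood at h1
    obtain ⟨d, hd⟩ := Nat.exists_eq_add_of_le (kk_le x)
    have h2 := count (fun w => GoodW A x w) (kk x) d
    unfold accPr
    rw [hd]
    have h3 : Nat.card {w : Fin (kk x + d) → Bool // V A (pairBits (List.ofFn w) x) = [true]} =
        Nat.card {w : Fin (kk x + d) → Bool // GoodW A x ((List.ofFn w).take (kk x))} := by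
      apply Nat.card_congr
      exact Equiv.subtypeEquivRight fun w => V_iff A (List.ofFn w) x
    rw [h3, div_le_div_iff₀ (by norm_num) (by positivity)]
    have h4 : 2 ^ (kk x + d) ≤ 2 * Nat.card {w : Fin (kk x + d) → Bool //
        GoodW A x ((List.ofFn w).take (kk x))} := by
      calc 2 ^ (kk x + d) = 2 ^ kk x * 2 ^ d := pow_add _ _ _
        _ ≤ (2 * Nat.card {w : Fin (kk x) → Bool // GoodW A x (List.ofFn w)}) * 2 ^ d :=
          Nat.mul_le_mul_right _ h1
        _ ≤ _ := by rw [mul_assoc]; exact Nat.mul_le_mul_left _ h2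
    have h5 : (2 : ℝ) ^ (kk x + d) ≤ 2 * (Nat.card {w : Fin (kk x + d) → Bool //
        GoodW A x ((List.ofFn w).take (kk x))} : ℝ) := by exact_mod_cast h4
    linarith
  · unfold accPr
    have h1 : IsEmpty {w : Fin (pp.eval x.length) → Bool //
        V A (pairBits (List.ofFn w) x) = [true]} := by
      constructor
      rintro ⟨w, hw⟩
      rw [V_iff] at hw
      refine hx ⟨(List.ofFn w).take (kk x), ?_, hw⟩
      rw [List.length_take, List.length_ofFn, min_eq_left (kk_le x)]
    rw [Nat.card_of_isEmpty]
    simp

end Pool.Agent.H620R2.Gauge
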