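import Pool.Agent.H620R2.GaugeR.Base

/-! # Task R10 (helper153): the stage construction -/

namespace Pool.Agent.H620R2.Gauge

open Pool.Agent.NPC Finset H568R2

namespace TR10

private theorem len_pairBits (x w : List Bool) :
    2 * x.length + 1 ≤ (pairBits x w).length := by
  have h : (x.flatMap (fun b => [true, b])).length = 2 * x.length := by
    induction x with
    | nil => rfl
    | cons a l ih =>
      rw [List.flatMap_cons, List.length_append, ih]
      simp only [List.length_cons, List.length_nil]
      ring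
  simp only [pairBits, List.length_append, List.length_cons, h]
  omega

/-- the block of the `j`-th input -/
def blk (x : ℕ → List Bool) (j : ℕ) : Set (List Bool) :=
  {y | ∃ v : List Bool, v.length = kk (x j) + 1 ∧ y = pairBits (x j) v}

theorem blk_sub (x : ℕ → List Bool) (j : ℕ) {y : List Bool} (h : y ∈ blk x j) : y ∈ blkR x := by
  obtain ⟨v, hv, rfl⟩ := h
  exact ⟨j, v, hv, rfl⟩

theorem blk_of {x : ℕ → List Bool} {y : List Bool} (h : y ∈ blkR x) : ∃ j, y ∈ blk x j := by
  obtain ⟨j, v, hv, rfl⟩ := h
  exact ⟨j, v, hv, rfl⟩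

theorem blk_disj {x : ℕ → List Bool} (hx : StrictMono (fun j => (x j).length)) {i j : ℕ}
    {y : List Bool} (hi : y ∈ blk x i) (hj : y ∈ blk x j) : i = j := by
  obtain ⟨v, hv, rfl⟩ := hi
  obtain ⟨v', hv', h⟩ := hj
  have h1 := unpair_pairBits (x i) v
  have h2 := unpair_pairBits (x j) v'
  rw [h, h2] at h1
  have : x j = x i := congrArg Prod.fst h1
  exact hx.injective (congrArg List.length this).symm

theorem blk_len {x : ℕ → List Bool} {j : ℕ} {y : List Bool} (h : y ∈ blk x j) :
    2 * (x j).length + 1 ≤ y.length := by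
  obtain ⟨v, hv, rfl⟩ := h
  exact len_pairBits _ _

open Classical in
/-- the oracle after `j` stages -/
noncomputable def stg (M : ℕ → Alg) (x : ℕ → List Bool) (Q : ℕ → Oracle → Finset (List Bool))
    (B : Oracle) : ℕ → Oracle
  | 0 => fun y => if y ∈ blkR x then false else B y
  | j + 1 => fun y =>
      if y ∈ blk x j ∧ (M j).out (stg M x Q B j) (x j) ≠ some [true] ∧ y ∉ Q j (stg M x Q B j)
      then true else stg M x Q B j y

variable {M : ℕ → Alg} {x : ℕ → List Bool} {Q : ℕ → Oracle → Finset (List Bool)} {B : Oracle}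

open Classical in
theorem stg_zero (y : List Bool) :
    stg M x Q B 0 y = if y ∈ blkR x then false else B y := rfl

open Classical in
theorem stg_succ (j : ℕ) (y : List Bool) :
    stg M x Q B (j + 1) y =
      if y ∈ blk x j ∧ (M j).out (stg M x Q B j) (x j) ≠ some [true] ∧ y ∉ Q j (stg M x Q B j)
      then true else stg M x Q B j y := rfl

theorem stg_succ_of_not {j : ℕ} {y : List Bool} (h : y ∉ blk x j) :
    stg M x Q B (j + 1) y = stg M x Q B j y := by
  rw [stg_succ, if_neg (fun h' => h h'.1)]

theorem stg_out {y : List Bool} (h : y ∉ blkR x) (i : ℕ) : stg M x Q B i y = B y := by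
  induction i with
  | zero => rw [stg_zero, if_neg h]
  | succ i ih => rw [stg_succ_of_not (fun h' => h (blk_sub x i h')), ih]

theorem stg_le (hx : StrictMono (fun j => (x j).length)) {j : ℕ} {y : List Bool}
    (h : y ∈ blk x j) (i : ℕ) (hi : i ≤ j) : stg M x Q B i y = false := by
  induction i with
  | zero => rw [stg_zero, if_pos (blk_sub x j h)]
  | succ i ih =>
    rw [stg_succ_of_not (fun h' => by have := blk_disj hx h' h; omega), ih (by omega)]

theorem stg_ge (hx : StrictMono (fun j => (x j).length)) {j : ℕ} {y : List Bool}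
    (h : y ∈ blk x j) (i : ℕ) (hi : j + 1 ≤ i) :
    stg M x Q B i y = stg M x Q B (j + 1) y := by
  induction i, hi using Nat.le_induction with
  | base => rfl
  | succ i hi ih =>
    rw [stg_succ_of_not (fun h' => by have := blk_disj hx h' h; omega), ih]

/-- the final oracle -/
noncomputable def fin (M : ℕ → Alg) (x : ℕ → List Bool) (Q : ℕ → Oracle → Finset (List Bool))
    (B : Oracle) : Oracle := fun y => stg M x Q B (y.length + 1) y

theorem fin_blk (hx : StrictMono (fun j => (x j).length)) {j : ℕ} {y : List Bool}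
    (h : y ∈ blk x j) : fin M x Q B y = stg M x Q B (j + 1) y := by
  have h1 := blk_len h
  have h2 : j ≤ (x j).length := hx.le_apply
  exact stg_ge hx h _ (by omega)

theorem fin_eq (hx : StrictMono (fun j => (x j).length))
    (hlen : ∀ j A, ∀ q ∈ Q j A, q.length ≤ 2 * (x (j + 1)).length) (j : ℕ) (q : List Bool)
    (hq : q ∈ Q j (stg M x Q B j)) : fin M x Q B q = stg M x Q B j q := by
  by_cases hT : q ∈ blkR x
  · obtain ⟨l, hl⟩ := blk_of hT
    rw [fin_blk hx hl]
    rcases lt_trichotomy l j with h | h | h
    · exact (stg_ge hx hl j h).symm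
    · subst h
      rw [stg_succ, if_neg (fun h' => h'.2.2 hq)]
    · exfalso
      have h1 := blk_len hl
      have h2 := hlen j _ q hq
      have h3 : (x (j + 1)).length ≤ (x l).length := hx.monotone (by omega)
      omega
  · rw [fin, stg_out hT, stg_out hT]

end TR10

open TR10 in
theorem exists_stage (M : ℕ → Alg) (x : ℕ → List Bool)
    (hx : StrictMono (fun j => (x j).length))
    (hloc : ∀ j, ∀ A : Oracle, ∃ Q : Finset (List Bool), 2 * Q.card ≤ 2 ^ kk (x j) ∧
      (∀ q ∈ Q, q.length ≤ 2 * (x (j + 1)).length) ∧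
      ∀ A' : Oracle, (∀ q ∈ Q, A' q = A q) → (M j).out A' (x j) = (M j).out A (x j)) :
    ∃ Φ : Oracle → Oracle, ∀ B, (∀ y ∉ blkR x, Φ B y = B y) ∧
      ∀ j, ((M j).out (Φ B) (x j) = some [true] → x j ∉ rpLang (Φ B)) ∧
        ((M j).out (Φ B) (x j) ≠ some [true] → HalfGood (Φ B) (x j)) := by
  classical
  choose Q hcard hlen hout using hloc
  refine ⟨TR10.fin M x Q, fun B => ⟨fun y hy => stg_out hy _, fun j => ?_⟩⟩
  have hkey : (M j).out (TR10.fin M x Q B) (x j) = (M j).out (stg M x Q B j) (x j) :=
    hout j _ _ (fun q hq => fin_eq hx hlen j q hq)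
  rw [hkey]
  constructor
  · rintro hacc ⟨w, hw, hg⟩
    have hfalse : ∀ b : Bool, TR10.fin M x Q B (pairBits (x j) (b :: w)) = false := by
      intro b
      have hmem : pairBits (x j) (b :: w) ∈ blk x j := ⟨b :: w, by simp [hw], rfl⟩
      rw [fin_blk hx hmem, stg_succ, if_neg (fun h' => h'.2.1 hacc)]
      exact stg_le hx hmem j le_rfl
    rcases hg with hg | hg <;> rw [hfalse] at hg <;> exact absurd hg (by simp)
  · intro hrej
    have htrue : ∀ y ∈ blk x j, y ∉ Q j (stg M x Q B j) → TR10.fin M x Q B y = true := by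
      intro y hy hyQ
      rw [fin_blk hx hy, stg_succ, if_pos ⟨hy, hrej, hyQ⟩]
    unfold HalfGood
    set k := kk (x j) with hk
    rw [Nat.card_eq_fintype_card, Fintype.card_subtype]
    have htot : (Finset.univ.filter (fun w : Fin k → Bool =>
          GoodW (TR10.fin M x Q B) (x j) (List.ofFn w))).card
        + (Finset.univ.filter (fun w : Fin k → Bool =>
          ¬ GoodW (TR10.fin M x Q B) (x j) (List.ofFn w))).card = 2 ^ k := by
      rw [Finset.card_filter_add_card_filter_not]
      simp
    have hbad : (Finset.univ.filter (fun w : Fin k → Bool =>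
          ¬ GoodW (TR10.fin M x Q B) (x j) (List.ofFn w))).card ≤ (Q j (stg M x Q B j)).card := by
      apply Finset.card_le_card_of_injOn (fun w => pairBits (x j) (false :: List.ofFn w))
      · intro w hw
        simp only [Finset.coe_filter, Finset.mem_univ, true_and, Set.mem_setOf_eq] at hw
        by_contra hnot
        apply hw
        left
        exact htrue _ ⟨false :: List.ofFn w, by simp [hk], rfl⟩ hnot
      · intro w _ w' _ h
        have h1 := unpair_pairBits (x j) (false :: List.ofFn w)
        have h2 := unpair_pairBits (x j) (false :: List.ofFn w')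
        simp only at h
        rw [h, h2] at h1
        have h3 : false :: List.ofFn w' = false :: List.ofFn w := congrArg Prod.snd h1
        have h4 : List.ofFn w' = List.ofFn w := (List.cons.inj h3).2
        exact (List.ofFn_injective h4).symm
    have hc := hcard j (stg M x Q B j)
    rw [← hk] at hc
    omega

end Pool.Agent.H620R2.Gauge
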