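import Pool.Agent.H620R2.GaugeR.Base
import Pool.Agent.H620R2.GaugeR.R8
import Pool.Agent.H620R2.Gauge2.V1

/-!
# Task R9: almost all blocks are good (by helper114)
-/

namespace Pool.Agent.H620R2.Gauge

open Pool.Agent.NPC Finset H568R2

/-! ### Injectivity of the pairing -/

theorem r9_pair_inj (x : List Bool) : ∀ {w w' : List Bool}, pairBits x w = pairBits x w' → w = w' := by
  intro w w' h
  unfold pairBits at h
  rw [List.append_right_inj] at h
  exact (List.cons.inj h).2

/-- the positions of the block of `x` -/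
def r9_pos (x : List Bool) (q : (Fin (kk x) → Bool) × Bool) : List Bool :=
  pairBits x (q.2 :: List.ofFn q.1)

theorem r9_pos_inj (x : List Bool) : Function.Injective (r9_pos x) := by
  rintro ⟨w, b⟩ ⟨w', b'⟩ h
  have h1 := r9_pair_inj x h
  simp only [List.cons.injEq] at h1
  obtain ⟨h2, h3⟩ := h1
  have h4 : w = w' := List.ofFn_injective h3
  rw [h2, h4]

/-- the complement of the half good event, for a block -/
def r9_E (k : ℕ) (a : (Fin k → Bool) × Bool → Bool) : Prop :=
  ¬ (2 ^ k ≤ 2 * Nat.card {w : Fin k → Bool // a (w, false) = true ∨ a (w, true) = true})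

theorem r9_notHalf (x : List Bool) :
    {B : Oracle | ¬ HalfGood B x} = {B : Oracle | r9_E (kk x) (fun q => B (r9_pos x q))} := rfl

/-! ### The estimate for one block -/

open Classical in
/-- the factor of `w` -/
noncomputable def r9_phi {k : ℕ} (w : Fin k → Bool) (a : (Fin k → Bool) × Bool → Bool) : ℝ :=
  if a (w, false) = true ∨ a (w, true) = true then 1 else 3

theorem r9_phi_nonneg {k : ℕ} (w : Fin k → Bool) (a : (Fin k → Bool) × Bool → Bool) :
    0 ≤ r9_phi w a := by
  unfold r9_phi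
  split_ifs <;> norm_num

open Classical in
theorem r9_prod_eq {k : ℕ} (a : (Fin k → Bool) × Bool → Bool) :
    ∏ w : Fin k → Bool, r9_phi w a =
      3 ^ (univ.filter (fun w : Fin k → Bool =>
        ¬ (a (w, false) = true ∨ a (w, true) = true))).card := by
  unfold r9_phi
  rw [Finset.prod_ite]
  simp

open Classical in
theorem r9_point (k : ℕ) (a : (Fin (k + 1) → Bool) × Bool → Bool) :
    (if r9_E (k + 1) a then (1 : ℝ) else 0) ≤
      (1 / 3) ^ (2 ^ k) * ∏ w : Fin (k + 1) → Bool, r9_phi w a := by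
  split_ifs with h
  · rw [r9_prod_eq]
    unfold r9_E at h
    rw [Nat.card_eq_fintype_card, Fintype.card_subtype] at h
    have h1 := Finset.card_filter_add_card_filter_not
      (s := (univ : Finset (Fin (k + 1) → Bool)))
      (fun w => a (w, false) = true ∨ a (w, true) = true)
    have h2 : (univ : Finset (Fin (k + 1) → Bool)).card = 2 ^ (k + 1) := by simp
    rw [h2] at h1
    have h3 : 2 ^ k ≤ (univ.filter (fun w : Fin (k + 1) → Bool =>
        ¬ (a (w, false) = true ∨ a (w, true) = true))).card := by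
      rw [pow_succ] at h h1
      omega
    calc (1 : ℝ) = (1 / 3) ^ (2 ^ k) * 3 ^ (2 ^ k) := by
          rw [← mul_pow]; norm_num
      _ ≤ _ := by
          refine mul_le_mul_of_nonneg_left ?_ (by positivity)
          exact pow_le_pow_right₀ (by norm_num) h3
  · exact mul_nonneg (by positivity) (Finset.prod_nonneg fun w _ => r9_phi_nonneg w a)

theorem r9_pair {I : Type*} [Fintype I] [DecidableEq I] (i j : I) (hij : i ≠ j) :
    Ex unif (fun a : I → Bool => if a i = true ∨ a j = true then (1 : ℝ) else 3) = 3 / 2 := by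
  have h1 : (fun a : I → Bool => if a i = true ∨ a j = true then (1 : ℝ) else 3) =
      fun a => 1 + 2 * ((1 : ℝ) * (if ∀ l ∈ ({i, j} : Finset I), a l = false then 1 else 0)) := by
    funext a
    cases h : a i <;> cases h' : a j <;> (simp [h, h']; try norm_num)
  rw [h1, Ex_add, Ex_const unif_sum, Ex_smul,
    Ex_indep unif_sum (fun b => b = false) {i, j} (fun _ => 1) (fun _ _ _ _ => rfl),
    Ex_const unif_sum]
  have h2 : ∑ a ∈ univ.filter (fun b : Bool => b = false), unif a = 1 / 2 := by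
    have : univ.filter (fun b : Bool => b = false) = {false} := by decide
    rw [this]
    simp [unif]
  rw [h2, Finset.card_pair hij]
  norm_num

theorem r9_prod (k : ℕ) :
    Ex unif (fun a : (Fin k → Bool) × Bool → Bool => ∏ w : Fin k → Bool, r9_phi w a) ≤
      (3 / 2) ^ (2 ^ k) := by
  have h := prod_block (univ : Finset (Fin k → Bool))
    (fun w => ({(w, false), (w, true)} : Finset ((Fin k → Bool) × Bool)))
    (fun w a => r9_phi w a) (fun _ => 3 / 2) (fun w _ a => r9_phi_nonneg w a) ?_ ?_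
  · refine h.trans (le_of_eq ?_)
    rw [Finset.prod_const]
    congr 1
    simp
  · intro w _ w' _ hne a b
    have e1 : ∀ c : Bool, mix ({(w', false), (w', true)} : Finset ((Fin k → Bool) × Bool)) b a (w, c) =
        a (w, c) := by
      intro c
      unfold mix
      rw [if_neg]
      simp only [Finset.mem_insert, Finset.mem_singleton, Prod.mk.injEq, not_or]
      exact ⟨fun h => hne h.1, fun h => hne h.1⟩
    simp only [r9_phi, e1]
  · intro w _ a
    have e1 : ∀ (b : (Fin k → Bool) × Bool → Bool) (c : Bool),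
        mix ({(w, false), (w, true)} : Finset ((Fin k → Bool) × Bool)) b a (w, c) = b (w, c) := by
      intro b c
      unfold mix
      rw [if_pos]
      cases c <;> simp
    have e2 : (fun b : (Fin k → Bool) × Bool → Bool =>
        r9_phi w (mix ({(w, false), (w, true)} : Finset ((Fin k → Bool) × Bool)) b a)) =
        fun b => if b (w, false) = true ∨ b (w, true) = true then (1 : ℝ) else 3 := by
      funext b
      simp only [r9_phi, e1]
    rw [e2, r9_pair]
    simp

open Classical in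
theorem r9_block (k : ℕ) :
    Ex unif (fun a : (Fin (k + 1) → Bool) × Bool → Bool => if r9_E (k + 1) a then (1 : ℝ) else 0) ≤
      (3 / 4) ^ (2 ^ k) := by
  refine (Ex_mono unif_nonneg (r9_point k)).trans ?_
  rw [Ex_smul]
  have h := r9_prod (k + 1)
  have h1 : (1 / 3 : ℝ) ^ (2 ^ k) * (3 / 2) ^ (2 ^ (k + 1)) = (3 / 4) ^ (2 ^ k) := by
    rw [pow_succ 2 k, mul_comm (2 ^ k) 2, pow_mul, ← mul_pow]
    norm_num
  rw [← h1]
  exact mul_le_mul_of_nonneg_left h (by positivity)

/-! ### Numerical estimates -/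

theorem r9_kk (x : List Bool) : ∃ k, kk x = k + 1 ∧ 8 * (x.length + 1) ≤ 2 ^ k := by
  refine ⟨(ones x + 2) * x.length.size + 3, by unfold kk; ring, ?_⟩
  have h1 : x.length < 2 ^ x.length.size := Nat.lt_size_self _
  have h2 : 2 ^ (x.length.size + 3) ≤ 2 ^ ((ones x + 2) * x.length.size + 3) := by
    apply Nat.pow_le_pow_right (by norm_num)
    have : 1 * x.length.size ≤ (ones x + 2) * x.length.size :=
      Nat.mul_le_mul_right _ (by omega)
    omega
  rw [pow_add] at h2
  omega

theorem r9_num (n k : ℕ) (h : 8 * (n + 1) ≤ 2 ^ k) : (3 / 4 : ℝ) ^ (2 ^ k) ≤ (1 / 8) ^ (n + 1) := by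
  calc (3 / 4 : ℝ) ^ (2 ^ k) ≤ (3 / 4) ^ (8 * (n + 1)) :=
        pow_le_pow_of_le_one (by norm_num) (by norm_num) h
    _ = ((3 / 4) ^ 8) ^ (n + 1) := by rw [pow_mul]
    _ ≤ (1 / 8) ^ (n + 1) := by
        apply pow_le_pow_left₀ (by positivity)
        norm_num

theorem r9_tele (i : ℕ) : (1 / 8 : ℝ) ^ ((str i).length + 1) ≤
    1 / 2 * (1 / ((i : ℝ) + 1) - 1 / ((i : ℝ) + 1 + 1)) := by
  rw [length_str]
  have h1 : i + 1 < 2 ^ (Nat.log 2 (i + 1) + 1) := Nat.lt_pow_succ_log_self (by norm_num) _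
  have h2 : (i : ℝ) + 2 ≤ 2 ^ (Nat.log 2 (i + 1) + 1) := by
    have : ((i + 2 : ℕ) : ℝ) ≤ ((2 ^ (Nat.log 2 (i + 1) + 1) : ℕ) : ℝ) := by
      exact_mod_cast h1
    push_cast at this
    exact this
  set y : ℝ := 2 ^ (Nat.log 2 (i + 1) + 1) with hy
  have h3 : (1 / 8 : ℝ) ^ (Nat.log 2 (i + 1) + 1) = (1 / y) ^ 3 := by
    rw [hy, ← one_div_pow, ← pow_mul, mul_comm, pow_mul]
    norm_num
  rw [h3]
  have hi : (0 : ℝ) ≤ i := Nat.cast_nonneg i
  have h4 : 1 / y ≤ 1 / ((i : ℝ) + 2) := one_div_le_one_div_of_le (by positivity) h2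
  have h5 : (1 / y) ^ 3 ≤ (1 / ((i : ℝ) + 2)) ^ 3 := by
    apply pow_le_pow_left₀ _ h4
    have : 0 < y := by linarith
    positivity
  refine h5.trans ?_
  have e1 : 1 / 2 * (1 / ((i : ℝ) + 1) - 1 / ((i : ℝ) + 1 + 1)) =
      1 / (2 * (((i : ℝ) + 1) * ((i : ℝ) + 2))) := by
    field_simp
    ring
  rw [e1, one_div_pow]
  apply one_div_le_one_div_of_le (by positivity)
  nlinarith [mul_nonneg hi hi, mul_nonneg (mul_nonneg hi hi) hi]

/-! ### The main statement -/

open Classical in
theorem r9_bound (x : List Bool) :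
    ranO {B : Oracle | ¬ HalfGood B x} ≤ ENNReal.ofReal ((1 / 8) ^ (x.length + 1)) := by
  rw [r9_notHalf]
  refine (ranO_cyl_le (r9_pos x) (r9_pos_inj x) (r9_E (kk x))).trans ?_
  apply ENNReal.ofReal_le_ofReal
  obtain ⟨k, hk, hk'⟩ := r9_kk x
  rw [hk]
  have h5 := (r9_block k).trans (r9_num _ _ hk')
  refine le_trans (le_of_eq ?_) h5
  congr 1

theorem ranO_good : 0 < ranO {B | ∀ x, HalfGood B x} := by
  by_contra h0
  have h0' : ranO {B : Oracle | ∀ x, HalfGood B x} = 0 := by
    simpa using h0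
  have hsub : (Set.univ : Set Oracle) ⊆
      {B | ∀ x, HalfGood B x} ∪ ⋃ i : ℕ, {B | ¬ HalfGood B (str i)} := by
    intro B _
    by_cases hB : ∀ x, HalfGood B x
    · exact Or.inl hB
    · right
      push Not at hB
      obtain ⟨x, hx⟩ := hB
      refine Set.mem_iUnion.2 ⟨idx x, ?_⟩
      show ¬ HalfGood B (str (idx x))
      rw [str_idx]
      exact hx
  have h1 : ∑' i : ℕ, ranO {B : Oracle | ¬ HalfGood B (str i)} ≤ ENNReal.ofReal (1 / 2) := by
    refine ENNReal.tsum_le_of_sum_range_le fun n => ?_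
    calc ∑ i ∈ range n, ranO {B : Oracle | ¬ HalfGood B (str i)}
        ≤ ∑ i ∈ range n, ENNReal.ofReal (1 / 2 * (1 / ((i : ℝ) + 1) - 1 / ((i : ℝ) + 1 + 1))) :=
          Finset.sum_le_sum fun i _ =>
            (r9_bound (str i)).trans (ENNReal.ofReal_le_ofReal (r9_tele i))
      _ = ENNReal.ofReal (∑ i ∈ range n,
            (1 / 2 * (1 / ((i : ℝ) + 1) - 1 / ((i : ℝ) + 1 + 1)))) := by
          rw [ENNReal.ofReal_sum_of_nonneg]
          intro i _
          exact le_trans (by positivity) (r9_tele i)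
      _ ≤ ENNReal.ofReal (1 / 2) := by
          apply ENNReal.ofReal_le_ofReal
          rw [← Finset.mul_sum]
          have h2 := Finset.sum_range_sub' (fun i : ℕ => 1 / ((i : ℝ) + 1)) n
          have h3 : ∑ i ∈ range n, (1 / ((i : ℝ) + 1) - 1 / ((i : ℝ) + 1 + 1)) =
              1 / (((0 : ℕ) : ℝ) + 1) - 1 / ((n : ℝ) + 1) := by
            rw [← h2]
            refine Finset.sum_congr rfl fun i _ => ?_
            push_cast
            ring
          rw [h3]
          have h4 : 0 ≤ 1 / ((n : ℝ) + 1) := by positivity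
          norm_num at h4 ⊢
          linarith
  have h2 : (1 : ENNReal) ≤ ENNReal.ofReal (1 / 2) := by
    calc (1 : ENNReal) = ranO Set.univ := MeasureTheory.measure_univ.symm
      _ ≤ ranO ({B : Oracle | ∀ x, HalfGood B x} ∪ ⋃ i : ℕ, {B | ¬ HalfGood B (str i)}) :=
          MeasureTheory.measure_mono hsub
      _ ≤ ranO {B : Oracle | ∀ x, HalfGood B x} + ranO (⋃ i : ℕ, {B | ¬ HalfGood B (str i)}) :=
          MeasureTheory.measure_union_le _ _
      _ ≤ 0 + ∑' i : ℕ, ranO {B : Oracle | ¬ HalfGood B (str i)} := by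
          rw [h0']
          exact add_le_add le_rfl (MeasureTheory.measure_iUnion_le _)
      _ ≤ ENNReal.ofReal (1 / 2) := by rw [zero_add]; exact h1
  rw [← ENNReal.ofReal_one, ENNReal.ofReal_le_ofReal_iff (by norm_num)] at h2
  norm_num at h2

end Pool.Agent.H620R2.Gauge
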