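import Pool.Agent.H620R2.GaugeR.R8
import Pool.Agent.H620R2.GaugeR.R9
import Pool.Agent.H620R2.GaugeR.R10
import Pool.Agent.H620R2.GaugeR.R11
import Pool.Agent.H620R2.GaugeR.R12
import Pool.Agent.H620R2.GaugeR.Base
import Pool.Agent.H620R2.Gauge.A1

/-! There are many oracles for which `P` and `RP` are different. -/

namespace Pool.Agent.H620R2.Gauge

open Pool.Agent.NPC Finset H568R2 Pool.Agent.H676

theorem not_nullR {f : ℕ → ℝ} (hf : ¬ Cond1 f) :
    ¬ Null f {A : Oracle | ∃ L, IsRP A L ∧ ¬ IsP A L} := by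
  classical
  have hne : Nonempty Alg := by
    obtain ⟨M, _⟩ := IsFP.of_poly (A := fun _ => false) (F := fun x => x) Poly.id
    exact ⟨M⟩
  obtain ⟨g, hg⟩ := exists_surjective_nat Alg
  choose qb hqb using fun e : ℕ => Alg.out_local (g e)
  obtain ⟨x, hx, h1, h2, c, hc⟩ := choose_seq f hf (fun e => (g e).p) qb
  obtain ⟨Φ, hΦ⟩ := exists_stage g x hx (by
    intro j A
    obtain ⟨Q, hQ1, hQ2, hQ3⟩ := hqb j A (x j)
    refine ⟨Q, ?_, fun q hq => (hQ2 q hq).trans (h2 j), hQ3⟩
    have := h1 j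
    omega)
  refine not_null_of f {B | ∀ x, HalfGood B x} ranO_good Φ (blkR x) (fun B => (hΦ B).1) c hc _ ?_
  intro B hB
  refine ⟨rpLang (Φ B), rpLang_rp ?_, ?_⟩
  · intro y hy
    by_cases h : ∃ j, y = x j
    · obtain ⟨j, rfl⟩ := h
      by_cases h3 : (g j).out (Φ B) (x j) = some [true]
      · exact absurd hy (((hΦ B).2 j).1 h3)
      · exact ((hΦ B).2 j).2 h3
    · have h4 := hB y
      have h5 : ∀ v, Φ B (pairBits y v) = B (pairBits y v) := by
        intro v
        apply (hΦ B).1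
        rintro ⟨j, v', _, h6⟩
        have h7 := congrArg unpair h6
        rw [unpair_pairBits, unpair_pairBits] at h7
        exact h ⟨j, (Prod.ext_iff.1 h7).1⟩
      unfold HalfGood GoodW at h4 ⊢
      simp only [h5]
      exact h4
  · rintro ⟨V, ⟨M, hM⟩, hV⟩
    obtain ⟨j, rfl⟩ := hg M
    by_cases h3 : (g j).out (Φ B) (x j) = some [true]
    · apply ((hΦ B).2 j).1 h3
      rw [hV]
      rw [hM] at h3
      exact Option.some.inj h3
    · have h4 := ((hΦ B).2 j).2 h3
      have h5 : x j ∈ rpLang (Φ B) := by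
        unfold HalfGood at h4
        have h6 : 0 < Nat.card {w : Fin (kk (x j)) → Bool // GoodW (Φ B) (x j) (List.ofFn w)} := by
          have h7 : 0 < 2 ^ kk (x j) := by positivity
          omega
        rw [Nat.card_pos_iff] at h6
        obtain ⟨⟨w, hw⟩⟩ := h6.1
        exact ⟨List.ofFn w, List.length_ofFn, hw⟩
      apply h3
      rw [hM, Option.some.injEq]
      exact (hV _).1 h5

end Pool.Agent.H620R2.Gauge
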