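import Pool.Agent.H620R2.GaugeR.R3
import Pool.Agent.H620R2.GaugeR.R4
import Pool.Agent.H620R2.GaugeR.R7
import Pool.Agent.H620R2.Gauge2.Null
import Pool.Agent.H620R2.GaugeR.Base

/-! The oracles for which `P` and `RP` are different. -/

namespace Pool.Agent.H620R2.Gauge

open Pool.Agent.NPC Finset H568R2 Pool.Agent.H676

theorem length_smp (l n k : ℕ) : (smp l n k).length = l + 1 + n := by
  unfold smp
  rw [List.length_append, List.length_replicate, length_bitsOf]

theorem smp_inj {l n k k' : ℕ} (hk : k < 2 ^ n) (hk' : k' < 2 ^ n) (h : smp l n k = smp l n k') :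
    k = k' := by
  unfold smp at h
  exact bitsOf_inj hk hk' (List.append_cancel_left h)

/-- the event that all samples are bad for some input of length `n` -/
def EvR (M : Alg) (p l T : Polynomial ℕ) (n N : ℕ) (a : Fin N → Bool) : Prop :=
  ∃ x : List Bool, x.length = n ∧
    2 ^ p.eval n ≤ 2 * Nat.card {w : Fin (p.eval n) → Bool //
      M.out (orc N a) (pairBits (List.ofFn w) x) = some [true]} ∧
    ∀ i < T.eval n, M.out (orc N a) (pairBits ((List.range (p.eval n)).map (fun t =>
      orc N a (smp (l.eval n) n (i * p.eval n + t)))) x) ≠ some [true]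

/-- the questions on inputs with random strings are not longer than this -/
def QB (M : Alg) (p l : Polynomial ℕ) : Prop :=
  ∀ (A : Oracle) (x w : List Bool), w.length = p.eval x.length →
    ∃ Q : Finset (List Bool), (∀ q ∈ Q, q.length ≤ l.eval x.length) ∧
      ∀ A' : Oracle, (∀ q ∈ Q, A' q = A q) → M.out A' (pairBits w x) = M.out A (pairBits w x)

theorem exists_QB (M : Alg) (p : Polynomial ℕ) : ∃ l : Polynomial ℕ, QB M p l := by
  obtain ⟨qb, hqb⟩ := Alg.out_local M
  refine ⟨qb.comp (2 * p + 1 + Polynomial.X), fun A x w hw => ?_⟩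
  obtain ⟨Q, _, h1, h2⟩ := hqb A (pairBits w x)
  refine ⟨Q, fun q hq => ?_, h2⟩
  have h3 := h1 q hq
  rw [length_pairBits, hw] at h3
  simpa [Polynomial.eval_comp] using h3

theorem QB.congr {M : Alg} {p l : Polynomial ℕ} (h : QB M p l) {A A' : Oracle} {x w : List Bool}
    (hw : w.length = p.eval x.length) (hA : ∀ q : List Bool, q.length ≤ l.eval x.length →
      A' q = A q) : M.out A' (pairBits w x) = M.out A (pairBits w x) := by
  obtain ⟨Q, h1, h2⟩ := h A x w hw
  exact h2 A' fun q hq => hA q (h1 q hq)

open Classical in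
theorem evR_bound {M : Alg} {p l T : Polynomial ℕ} (hl : QB M p l) {n N : ℕ}
    (hT : T.eval n * p.eval n ≤ 2 ^ n) (hN : 2 ^ (l.eval n + n + 2) ≤ N) :
    Ex unif (fun a : Fin N → Bool => if EvR M p l T n N a then (1 : ℝ) else 0) ≤
      2 ^ n * (1 / 2) ^ T.eval n := by
  -- positions of the samples
  have hlt : ∀ k : ℕ, idx (smp (l.eval n) n k) < N := by
    intro k
    have h1 := idx_lt (smp (l.eval n) n k)
    rw [length_smp] at h1
    have h2 : 2 ^ (l.eval n + 1 + n + 1) = 2 ^ (l.eval n + n + 2) := by congr 1; ring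
    omega
  let pos : Fin (T.eval n) → Fin (p.eval n) → Fin N := fun i t =>
    ⟨idx (smp (l.eval n) n (i.val * p.eval n + t.val)), hlt _⟩
  have hkl : ∀ (i : Fin (T.eval n)) (t : Fin (p.eval n)), i.val * p.eval n + t.val < 2 ^ n := by
    intro i t
    calc i.val * p.eval n + t.val < i.val * p.eval n + p.eval n := by have := t.2; omega
      _ = (i.val + 1) * p.eval n := by ring
      _ ≤ T.eval n * p.eval n := Nat.mul_le_mul_right _ i.2
      _ ≤ 2 ^ n := hT
  have hinj : Function.Injective (fun q : Fin (T.eval n) × Fin (p.eval n) => pos q.1 q.2) := by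
    rintro ⟨i, t⟩ ⟨i', t'⟩ h
    have h1 : idx (smp (l.eval n) n (i.val * p.eval n + t.val)) =
        idx (smp (l.eval n) n (i'.val * p.eval n + t'.val)) := by
      simpa [pos] using h
    have h2 : smp (l.eval n) n (i.val * p.eval n + t.val) =
        smp (l.eval n) n (i'.val * p.eval n + t'.val) := by
      rw [← str_idx (smp (l.eval n) n (i.val * p.eval n + t.val)), h1, str_idx]
    have h3 := smp_inj (hkl i t) (hkl i' t') h2
    have ht := t.2
    have ht' := t'.2
    have h4 : i.val = i'.val := by
      have e1 : (i.val * p.eval n + t.val) / p.eval n = i.val := by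
        rw [Nat.mul_comm, Nat.mul_add_div (by omega), Nat.div_eq_of_lt ht]; simp
      have e2 : (i'.val * p.eval n + t'.val) / p.eval n = i'.val := by
        rw [Nat.mul_comm, Nat.mul_add_div (by omega), Nat.div_eq_of_lt ht']; simp
      rw [← e1, ← e2, h3]
    have h5 : t.val = t'.val := by
      rw [h4] at h3
      omega
    exact Prod.ext (Fin.ext h4) (Fin.ext h5)
  have hlist : ∀ (a : Fin N → Bool) (i : Fin (T.eval n)),
      List.ofFn (fun t : Fin (p.eval n) => a (pos i t)) =
      (List.range (p.eval n)).map (fun t =>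
        orc N a (smp (l.eval n) n (i.val * p.eval n + t))) := by
    intro a i
    apply List.ext_getElem
    · simp
    · intro t h1 h2
      simp only [List.getElem_ofFn, List.getElem_map, List.getElem_range, pos]
      unfold orc
      rw [dif_pos (hlt _)]
  -- the bound for one input
  have hone : ∀ x ∈ strsOf n, Ex unif (fun a : Fin N → Bool =>
      if 2 ^ p.eval n ≤ 2 * Nat.card {w : Fin (p.eval n) → Bool //
        decide (M.out (orc N a) (pairBits (List.ofFn w) x) = some [true]) = true} ∧
        ∀ i, decide (M.out (orc N a) (pairBits (List.ofFn (fun t => a (pos i t))) x) =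
          some [true]) = false then (1 : ℝ) else 0) ≤ (1 / 2) ^ T.eval n := by
    intro x hx
    have hxl : x.length = n := by
      obtain ⟨i, _, rfl⟩ := Finset.mem_image.1 hx
      rw [length_bitsOf]
    refine rp_single pos hinj (fun a w =>
      decide (M.out (orc N a) (pairBits (List.ofFn w) x) = some [true])) ?_
    intro a a' haa
    funext w
    have h1 : M.out (orc N a') (pairBits (List.ofFn w) x) =
        M.out (orc N a) (pairBits (List.ofFn w) x) := by
      apply hl.congr
      · rw [List.length_ofFn, hxl]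
      · intro q hq
        rw [hxl] at hq
        unfold orc
        by_cases hqN : idx q < N
        · rw [dif_pos hqN, dif_pos hqN]
          refine (haa ⟨idx q, hqN⟩ fun i t h => ?_).symm
          have h2 : idx (smp (l.eval n) n (i.val * p.eval n + t.val)) = idx q := by
            simpa [pos] using h
          have h3 : smp (l.eval n) n (i.val * p.eval n + t.val) = q := by
            rw [← str_idx (smp (l.eval n) n (i.val * p.eval n + t.val)), h2, str_idx]
          have h4 := congrArg List.length h3
          rw [length_smp] at h4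
          omega
        · rw [dif_neg hqN, dif_neg hqN]
    simp only [h1]
  have hU : Ex unif (fun a : Fin N → Bool => if EvR M p l T n N a then (1 : ℝ) else 0) ≤
      ∑ x ∈ strsOf n, Ex unif (fun a : Fin N → Bool =>
      if 2 ^ p.eval n ≤ 2 * Nat.card {w : Fin (p.eval n) → Bool //
        decide (M.out (orc N a) (pairBits (List.ofFn w) x) = some [true]) = true} ∧
        ∀ i, decide (M.out (orc N a) (pairBits (List.ofFn (fun t => a (pos i t))) x) =
          some [true]) = false then (1 : ℝ) else 0) := by
    rw [← Ex_sum]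
    apply Ex_mono unif_nonneg
    intro a
    by_cases hE : EvR M p l T n N a
    · rw [if_pos hE]
      obtain ⟨x, hx, h1, h2⟩ := hE
      refine le_trans ?_ (Finset.single_le_sum (f := fun x : List Bool =>
        if 2 ^ p.eval n ≤ 2 * Nat.card {w : Fin (p.eval n) → Bool //
        decide (M.out (orc N a) (pairBits (List.ofFn w) x) = some [true]) = true} ∧
        ∀ i, decide (M.out (orc N a) (pairBits (List.ofFn (fun t => a (pos i t))) x) =
          some [true]) = false then (1 : ℝ) else 0) (fun x _ => by positivity)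
        (by rw [← hx]; exact mem_strsOf x))
      show (1 : ℝ) ≤ if _ then 1 else 0
      rw [if_pos]
      refine ⟨?_, ?_⟩
      · simpa only [decide_eq_true_eq] using h1
      · intro i
        rw [hlist a i]
        exact decide_eq_false (h2 i.val i.2)
    · rw [if_neg hE]
      exact Finset.sum_nonneg fun x _ => by positivity
  refine hU.trans ((Finset.sum_le_sum hone).trans ?_)
  rw [Finset.sum_const, nsmul_eq_mul]
  apply mul_le_mul_of_nonneg_right _ (by positivity)
  have := card_strsOf n
  exact_mod_cast this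

/-- the oracles for which the parameters are good and the language is not in `P` -/
def EasyR (θ : Alg × Polynomial ℕ) : Set Oracle :=
  {A | ∃ (V : List Bool → List Bool) (L : Set (List Bool)),
    (∀ x, θ.1.out A x = some (V x)) ∧ (∀ x, (x ∈ L → 1 / 2 ≤ accPr V (θ.2.eval x.length) x) ∧
      (x ∉ L → accPr V (θ.2.eval x.length) x = 0)) ∧ ¬ IsP A L}

theorem accPr_ge {V : List Bool → List Bool} {m : ℕ} {x : List Bool} (h : 1 / 2 ≤ accPr V m x) :
    2 ^ m ≤ 2 * Nat.card {w : Fin m → Bool // V (pairBits (List.ofFn w) x) = [true]} := by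
  unfold accPr at h
  rw [le_div_iff₀ (by positivity)] at h
  have h1 : (2 : ℝ) ^ m ≤
      2 * (Nat.card {w : Fin m → Bool // V (pairBits (List.ofFn w) x) = [true]} : ℝ) := by
    linarith
  exact_mod_cast h1

theorem accPr_zero {V : List Bool → List Bool} {m : ℕ} {x : List Bool} (h : accPr V m x = 0)
    (w : List Bool) (hw : w.length = m) : V (pairBits w x) ≠ [true] := by
  intro hV
  unfold accPr at h
  rw [div_eq_zero_iff] at h
  rcases h with h | h
  · have h1 : Nat.card {w : Fin m → Bool // V (pairBits (List.ofFn w) x) = [true]} = 0 := by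
      exact_mod_cast h
    rw [Nat.card_eq_zero] at h1
    rcases h1 with h1 | h1
    · subst hw
      refine h1.false ⟨w.get, ?_⟩
      rw [List.ofFn_get]
      exact hV
    · exact absurd h1 (by rw [not_infinite_iff_finite]; infer_instance)
  · exact absurd h (by positivity)

theorem ev_of_easyR (θ : Alg × Polynomial ℕ) {l T : Polynomial ℕ} (hl : QB θ.1 θ.2 l) (n₁ : ℕ)
    {A : Oracle} (hA : A ∈ EasyR θ) (N : ℕ → ℕ) (hN : ∀ n ≥ n₁, 2 ^ (l.eval n + n + 2) ≤ N n) :
    ∃ n ≥ n₁, EvR θ.1 θ.2 l T n (N n) (pre (N n) A) := by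
  obtain ⟨V, L, hV, hL, hnP⟩ := hA
  by_contra hcon
  push Not at hcon
  apply hnP
  have hVfp : IsFP A V := ⟨θ.1, hV⟩
  refine exists_sampler hVfp θ.2 l T n₁ fun x hx => ?_
  have hno := hcon x.length hx
  have hNx := hN x.length hx
  have hsame : ∀ w : List Bool, w.length = θ.2.eval x.length →
      θ.1.out (orc (N x.length) (pre (N x.length) A)) (pairBits w x) = some (V (pairBits w x)) := by
    intro w hw
    rw [← hV]
    apply hl.congr hw
    intro q hq
    apply orc_pre
    have h1 := idx_lt q
    have h2 : 2 ^ (q.length + 1) ≤ 2 ^ (l.eval x.length + x.length + 2) :=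
      Nat.pow_le_pow_right (by norm_num) (by omega)
    omega
  have hsmp : ∀ k, orc (N x.length) (pre (N x.length) A) (smp (l.eval x.length) x.length k) =
      A (smp (l.eval x.length) x.length k) := by
    intro k
    apply orc_pre
    have h1 := idx_lt (smp (l.eval x.length) x.length k)
    rw [length_smp] at h1
    have h2 : 2 ^ (l.eval x.length + 1 + x.length + 1) = 2 ^ (l.eval x.length + x.length + 2) := by
      congr 1; ring
    omega
  constructor
  · intro hxL
    by_contra hne
    push Not at hne
    apply hno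
    refine ⟨x, rfl, ?_, ?_⟩
    · have h1 := accPr_ge ((hL x).1 hxL)
      have h2 : ∀ w : Fin (θ.2.eval x.length) → Bool,
          (θ.1.out (orc (N x.length) (pre (N x.length) A)) (pairBits (List.ofFn w) x) =
            some [true]) ↔ V (pairBits (List.ofFn w) x) = [true] := by
        intro w
        rw [hsame _ (List.length_ofFn), Option.some.injEq]
      simp only [h2]
      exact h1
    · intro i hi
      simp only [hsmp]
      rw [hsame _ (by simp)]
      intro h
      exact hne i hi (Option.some.inj h)
  · rintro ⟨i, hi, h⟩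
    by_contra hxL
    exact accPr_zero ((hL x).2 hxL) _ (by simp) h

theorem nullR {f : ℕ → ℝ} (hf : Cond1 f) : Null f {A : Oracle | ∃ L, IsRP A L ∧ ¬ IsP A L} := by
  have hcP : Countable (Polynomial ℕ) := by
    have : Function.Injective (fun p : Polynomial ℕ => (p.toFinsupp.coeff : ℕ →₀ ℕ)) := by
      intro p q h
      ext n
      exact DFunLike.congr_fun h n
    exact this.countable
  refine (null_iUnion (f := f) EasyR fun θ => ?_).mono fun A hA => ?_
  · obtain ⟨C, hC⟩ := hf
    obtain ⟨l, hl⟩ := exists_QB θ.1 θ.2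
    obtain ⟨T, n₀, hT⟩ := asymR C (l + Polynomial.X + 2) θ.2 (by intro n; simp; omega) f hC
    have hev : ∀ n, (l + Polynomial.X + 2).eval n = l.eval n + n + 2 := by intro n; simp
    simp only [hev] at hT
    intro δ hδ
    -- the start
    obtain ⟨m, hm⟩ := exists_pow_lt_of_lt_one (show (0 : ℝ) < δ / 2 by positivity)
      (show (1 / 2 : ℝ) < 1 by norm_num)
    set n₁ := max n₀ m with hn₁
    have hn₁' : (1 / 2 : ℝ) ^ n₁ < δ / 2 :=
      lt_of_le_of_lt (pow_le_pow_of_le_one (by norm_num) (by norm_num) (le_max_right _ _)) hm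
    choose! hT1 N hN1 hN2 using hT
    have hcov : ∀ n : ℕ, ∃ S : Set (List Bool), n₁ ≤ n →
        (∀ A ∈ {A : Oracle | EvR θ.1 θ.2 l T n (N n) (pre (N n) A)}, ∃ σ ∈ S, Extends A σ) ∧
        ∑' σ : S, ENNReal.ofReal (2 ^ (f σ.1.length - σ.1.length)) ≤
          ENNReal.ofReal ((1 / 2) ^ n) := by
      intro n
      by_cases hn : n₁ ≤ n
      · have hn0 : n₀ ≤ n := le_trans (le_max_left _ _) hn
        classical
        obtain ⟨S, hS, hs⟩ := cover_of_event (EvR θ.1 θ.2 l T n (N n))
          {A : Oracle | EvR θ.1 θ.2 l T n (N n) (pre (N n) A)} (fun A hA => hA) f ((1 / 2) ^ n)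
          ((mul_le_mul_of_nonneg_right (evR_bound hl (hT1 n hn0) (hN1 n hn0))
            (by positivity)).trans (hN2 n hn0))
        exact ⟨S, fun _ => ⟨hS, hs⟩⟩
      · exact ⟨∅, fun h => absurd h hn⟩
    choose S hS using hcov
    refine ⟨⋃ k : ℕ, S (n₁ + k), ?_, ?_⟩
    · intro A hA
      obtain ⟨n, hn, hE⟩ := ev_of_easyR θ (T := T) hl n₁ hA N
        (fun n hn => hN1 n (le_trans (le_max_left _ _) hn))
      obtain ⟨σ, hσ, hE'⟩ := (hS n hn).1 A hE
      refine ⟨σ, Set.mem_iUnion.2 ⟨n - n₁, ?_⟩, hE'⟩
      rw [Nat.add_sub_cancel' hn]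
      exact hσ
    · refine (ENNReal.tsum_iUnion_le_tsum (fun σ : List Bool =>
        ENNReal.ofReal (2 ^ (f σ.length - σ.length))) (fun k => S (n₁ + k))).trans ?_
      refine (ENNReal.tsum_le_tsum fun k => (hS (n₁ + k) (Nat.le_add_right _ _)).2).trans ?_
      have hsum : Summable (fun k : ℕ => (1 / 2 : ℝ) ^ (n₁ + k)) := by
        simp only [pow_add]
        exact summable_geometric_two.mul_left _
      rw [← ENNReal.ofReal_tsum_of_nonneg (fun k => by positivity) hsum]
      apply ENNReal.ofReal_le_ofReal
      simp only [pow_add]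
      rw [tsum_mul_left, tsum_geometric_two]
      linarith
  · obtain ⟨L, ⟨V, p, ⟨M, hM⟩, hx⟩, hnP⟩ := hA
    exact Set.mem_iUnion.2 ⟨(M, p), V, L, hM, hx, hnP⟩

end Pool.Agent.H620R2.Gauge
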