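import Pool.Agent.H620R2.GaugeR.Base

/-!
# Sampling: one block of random bits (task R3, by helper746)
-/

namespace Pool.Agent.H620R2.Gauge

open Pool.Agent.NPC Finset H568R2

section

variable {I : Type*} [Fintype I] [DecidableEq I]

open Classical in
/-- the number of choices of the samples such that no sample is good -/
theorem rp_count {p T : ℕ} (F : (Fin p → Bool) → Bool)
    (h : 2 ^ p ≤ 2 * Nat.card {w : Fin p → Bool // F w = true}) :
    2 ^ T * (univ.filter (fun c : Fin T × Fin p → Bool =>
      ∀ i, F (fun t => c (i, t)) = false)).card ≤ 2 ^ (T * p) := by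
  have h1 : (univ.filter (fun c : Fin T × Fin p → Bool =>
      ∀ i, F (fun t => c (i, t)) = false)).card =
      (Fintype.piFinset (fun _ : Fin T => univ.filter (fun w : Fin p → Bool => F w = false))).card := by
    refine Finset.card_bij (fun c _ i t => c (i, t)) ?_ ?_ ?_
    · intro c hc
      simp only [Fintype.mem_piFinset, Finset.mem_filter, Finset.mem_univ, true_and] at hc ⊢
      exact hc
    · intro c _ c' _ hcc
      funext q
      exact congrFun (congrFun hcc q.1) q.2
    · intro d hd
      refine ⟨fun q => d q.1 q.2, ?_, rfl⟩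
      simp only [Fintype.mem_piFinset, Finset.mem_filter, Finset.mem_univ, true_and] at hd ⊢
      exact hd
  have h2 : (univ.filter (fun w : Fin p → Bool => F w = false)).card +
      Nat.card {w : Fin p → Bool // F w = true} = 2 ^ p := by
    rw [Nat.card_eq_fintype_card, Fintype.card_subtype]
    have h3 := Finset.card_filter_add_card_filter_not (s := (univ : Finset (Fin p → Bool)))
      (fun w => F w = false)
    simp only [Bool.not_eq_false, Finset.card_univ] at h3
    rw [h3]
    simp
  have h4 : 2 * (univ.filter (fun w : Fin p → Bool => F w = false)).card ≤ 2 ^ p := by omega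
  rw [h1, Fintype.card_piFinset_const, ← mul_pow, mul_comm T p, pow_mul]
  exact Nat.pow_le_pow_left h4 T

open Classical in
theorem rp_single {p T : ℕ} (pos : Fin T → Fin p → I)
    (hinj : Function.Injective (fun q : Fin T × Fin p => pos q.1 q.2))
    (F : (I → Bool) → (Fin p → Bool) → Bool)
    (hF : ∀ a a' : I → Bool, (∀ e, (∀ i t, pos i t ≠ e) → a e = a' e) → F a = F a') :
    Ex unif (fun a : I → Bool =>
      if 2 ^ p ≤ 2 * Nat.card {w : Fin p → Bool // F a w = true} ∧
        ∀ i, F a (fun t => a (pos i t)) = false then (1 : ℝ) else 0) ≤ (1 / 2) ^ T := by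
  set π : Fin T × Fin p → I := fun q => pos q.1 q.2 with hπ
  set E : (I → Bool) ≃ (Fin T × Fin p → Bool) × ({e : I // ¬ (e ∈ Set.range π)} → Bool) :=
    (Equiv.piEquivPiSubtypeProd (fun e => e ∈ Set.range π) (fun _ => Bool)).trans
      (Equiv.prodCongr (Equiv.arrowCongr (Equiv.ofInjective π hinj).symm (Equiv.refl _))
        (Equiv.refl _)) with hE
  have hE1 : ∀ a q, (E a).1 q = a (π q) := by
    intro a q
    simp [hE, Equiv.piEquivPiSubtypeProd, Equiv.arrowCongr]
  have hE2 : ∀ a e, (E a).2 e = a e.1 := by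
    intro a e
    simp [hE, Equiv.piEquivPiSubtypeProd]
  have hS1 : ∀ c b q, E.symm (c, b) (π q) = c q := by
    intro c b q
    rw [← hE1 (E.symm (c, b)) q, Equiv.apply_symm_apply]
  have hS2 : ∀ c b (e : {e : I // ¬ (e ∈ Set.range π)}), E.symm (c, b) e.1 = b e := by
    intro c b e
    rw [← hE2 (E.symm (c, b)) e, Equiv.apply_symm_apply]
  have hFb : ∀ c c' b, F (E.symm (c, b)) = F (E.symm (c', b)) := by
    intro c c' b
    refine hF _ _ fun e he => ?_
    have he' : ¬ (e ∈ Set.range π) := by
      rintro ⟨q, rfl⟩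
      exact he q.1 q.2 rfl
    rw [hS2 c b ⟨e, he'⟩, hS2 c' b ⟨e, he'⟩]
  have hcard : Fintype.card I = T * p + Fintype.card {e : I // ¬ (e ∈ Set.range π)} := by
    have h1 := Fintype.card_subtype_compl (fun e => e ∈ Set.range π)
    have h2 : Fintype.card {e : I // e ∈ Set.range π} = T * p := by
      rw [← Fintype.card_congr (Equiv.ofInjective π hinj)]
      simp
    have h3 := Fintype.card_subtype_le (fun e => e ∈ Set.range π)
    omega
  have hsum : ∑ a : I → Bool, (if 2 ^ p ≤ 2 * Nat.card {w : Fin p → Bool // F a w = true} ∧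
        ∀ i, F a (fun t => a (pos i t)) = false then (1 : ℝ) else 0) ≤
      2 ^ (T * p) * (1 / 2) ^ T * 2 ^ Fintype.card {e : I // ¬ (e ∈ Set.range π)} := by
    rw [← E.symm.sum_comp, Fintype.sum_prod_type_right]
    have hb : ∀ b : {e : I // ¬ (e ∈ Set.range π)} → Bool,
        ∑ c : Fin T × Fin p → Bool,
          (if 2 ^ p ≤ 2 * Nat.card {w : Fin p → Bool // F (E.symm (c, b)) w = true} ∧
            ∀ i, F (E.symm (c, b)) (fun t => E.symm (c, b) (pos i t)) = false
            then (1 : ℝ) else 0) ≤ 2 ^ (T * p) * (1 / 2) ^ T := by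
      intro b
      set F' := F (E.symm (fun _ => false, b)) with hF'
      have h1 : ∀ c : Fin T × Fin p → Bool,
          (if 2 ^ p ≤ 2 * Nat.card {w : Fin p → Bool // F (E.symm (c, b)) w = true} ∧
            ∀ i, F (E.symm (c, b)) (fun t => E.symm (c, b) (pos i t)) = false
            then (1 : ℝ) else 0) =
          if 2 ^ p ≤ 2 * Nat.card {w : Fin p → Bool // F' w = true} ∧
            ∀ i, F' (fun t => c (i, t)) = false then (1 : ℝ) else 0 := by
        intro c
        have h2 : ∀ i, (fun t => E.symm (c, b) (pos i t)) = fun t => c (i, t) := by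
          intro i
          funext t
          exact hS1 c b (i, t)
        simp only [hFb c (fun _ => false) b, h2, ← hF']
      rw [Finset.sum_congr rfl fun c _ => h1 c]
      by_cases hc : 2 ^ p ≤ 2 * Nat.card {w : Fin p → Bool // F' w = true}
      · simp only [hc, true_and]
        rw [Finset.sum_boole]
        have h3 := rp_count (T := T) F' hc
        have h4 : (2 : ℝ) ^ T * ((univ.filter (fun c : Fin T × Fin p → Bool =>
          ∀ i, F' (fun t => c (i, t)) = false)).card : ℝ) ≤ 2 ^ (T * p) := by exact_mod_cast h3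
        rw [one_div, inv_pow, ← div_eq_mul_inv, le_div_iff₀ (by positivity)]
        linarith
      · simp only [hc, false_and, if_false, Finset.sum_const_zero]
        positivity
    calc _ ≤ ∑ b : {e : I // ¬ (e ∈ Set.range π)} → Bool, (2 : ℝ) ^ (T * p) * (1 / 2) ^ T :=
          Finset.sum_le_sum fun b _ => hb b
      _ = _ := by
          rw [Finset.sum_const, Finset.card_univ, Fintype.card_fun, Fintype.card_bool, nsmul_eq_mul]
          push_cast
          ring
  unfold Ex
  have hun : ∀ a : I → Bool, (∏ i, unif (a i)) = (1 / 2 : ℝ) ^ Fintype.card I := by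
    intro a
    simp only [unif, Finset.prod_const, Finset.card_univ]
  simp only [hun]
  rw [← Finset.mul_sum]
  calc (1 / 2 : ℝ) ^ Fintype.card I * _ ≤ (1 / 2 : ℝ) ^ Fintype.card I *
        (2 ^ (T * p) * (1 / 2) ^ T * 2 ^ Fintype.card {e : I // ¬ (e ∈ Set.range π)}) :=
        mul_le_mul_of_nonneg_left hsum (by positivity)
    _ = (1 / 2) ^ T := by
        rw [hcard, pow_add]
        have e1 : (1 / 2 : ℝ) ^ (T * p) * 2 ^ (T * p) = 1 := by
          rw [← mul_pow]; norm_num
        have e2 : (1 / 2 : ℝ) ^ Fintype.card {e : I // ¬ (e ∈ Set.range π)} *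
            2 ^ Fintype.card {e : I // ¬ (e ∈ Set.range π)} = 1 := by
          rw [← mul_pow]; norm_num
        calc _ = ((1 / 2 : ℝ) ^ (T * p) * 2 ^ (T * p)) *
              ((1 / 2 : ℝ) ^ Fintype.card {e : I // ¬ (e ∈ Set.range π)} *
              2 ^ Fintype.card {e : I // ¬ (e ∈ Set.range π)}) * (1 / 2) ^ T := by ring
          _ = _ := by rw [e1, e2]; ring

end

end Pool.Agent.H620R2.Gauge
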