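import Pool.Agent.H620R2.GaugeR.Base
import Pool.Agent.H620R2.GaugeR.Seq
import Pool.Agent.H620R2.Gauge.A1

/-! Stubs. Never import this file in a finished file. -/

namespace Pool.Agent.H620R2.Gauge

open Pool.Agent.NPC Finset H568R2 Pool.Agent.H676

/-! ### Task R1: file `GaugeR/R1.lean` (may import GaugeR.Seq) -/

/-- a loop -/
theorem IsFP.loop {A : Oracle} {S : List Bool → List Bool} (hS : IsFP A S)
    {g : List Bool → List Bool} (hg : Poly g) (T b : Polynomial ℕ)
    (hb : ∀ x : List Bool, ∀ i ≤ T.eval x.length, (S^[i] (g x)).length ≤ b.eval x.length) :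
    IsFP A (fun x => S^[T.eval x.length] (g x)) := by sorry

/-! ### Task R2: file `GaugeR/R2.lean` (may import R1, GaugeR.Seq) -/

/-- polynomially many runs -/
theorem IsFP.votes {A : Oracle} {V : List Bool → List Bool} (hV : IsFP A V) (T : Polynomial ℕ)
    {Q : ℕ × List Bool → List (List Bool)} (hQ : Poly Q)
    {W : (ℕ × List Bool) × List Bool → List Bool} (hW : Poly W)
    {H : List Bool × List Bool → List Bool} (hH : Poly H) :
    IsFP A (fun x => H (x, (List.range (T.eval x.length)).map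
      (fun i => decide (V (W ((i, x), (Q (i, x)).map A)) = [true])))) := by sorry

/-! ### Task R3: file `GaugeR/R3.lean` (may import Gauge2.V1, Gauge2.V2) -/

section

variable {I : Type*} [Fintype I] [DecidableEq I]

open Classical in
theorem rp_single {p T : ℕ} (pos : Fin T → Fin p → I)
    (hinj : Function.Injective (fun q : Fin T × Fin p => pos q.1 q.2))
    (F : (I → Bool) → (Fin p → Bool) → Bool)
    (hF : ∀ a a' : I → Bool, (∀ e, (∀ i t, pos i t ≠ e) → a e = a' e) → F a = F a') :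
    Ex unif (fun a : I → Bool =>
      if 2 ^ p ≤ 2 * Nat.card {w : Fin p → Bool // F a w = true} ∧
        ∀ i, F a (fun t => a (pos i t)) = false then (1 : ℝ) else 0) ≤ (1 / 2) ^ T := by sorry

end

/-! ### Task R4: file `GaugeR/R4.lean` (may import R2, R5, Gauge.Upper) -/

/-- the sampling algorithm -/
theorem exists_sampler {A : Oracle} {V : List Bool → List Bool} (hV : IsFP A V)
    (p l T : Polynomial ℕ) {L : Set (List Bool)} (n₀ : ℕ)
    (h : ∀ x : List Bool, n₀ ≤ x.length → (x ∈ L ↔ ∃ i < T.eval x.length,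
      V (pairBits ((List.range (p.eval x.length)).map (fun t =>
        A (smp (l.eval x.length) x.length (i * p.eval x.length + t)))) x) = [true])) :
    IsP A L := by sorry

/-! ### Task R5: file `GaugeR/R5.lean` (may import GaugeR.Seq, Gauge.Upper) -/

theorem IsP.patch {A : Oracle} {L L' : Set (List Bool)} (h : IsP A L) (n₀ : ℕ)
    (hL : ∀ x : List Bool, n₀ ≤ x.length → (x ∈ L' ↔ x ∈ L)) : IsP A L' := by sorry

theorem IsP.isRP {A : Oracle} {L : Set (List Bool)} (h : IsP A L) : IsRP A L := by sorry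

theorem IsRP.isNP {A : Oracle} {L : Set (List Bool)} (h : IsRP A L) : IsNP A L := by sorry

/-! ### Task R6: file `GaugeR/R6.lean` (may import R2) -/

/-- random strings can be replaced by advice -/
theorem IsRP.withAdvice {A : Oracle} {L : Set (List Bool)} (h : IsRP A L) :
    WithAdvice (IsP A) L := by sorry

/-! ### Task R7: file `GaugeR/R7.lean` -/

theorem asymR (C : ℕ) (Λ p : Polynomial ℕ) (hΛ : ∀ n, n ≤ Λ.eval n) (f : ℕ → ℝ)
    (hf : ∀ᶠ N : ℕ in Filter.atTop, ∃ N' ≥ N, f N' ≤ (Real.logb 2 N) ^ C) :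
    ∃ (T : Polynomial ℕ) (n₀ : ℕ), ∀ n ≥ n₀, T.eval n * p.eval n ≤ 2 ^ n ∧
      ∃ N' : ℕ, 2 ^ Λ.eval n ≤ N' ∧
        (2 : ℝ) ^ n * (1 / 2) ^ T.eval n * 2 ^ f N' ≤ (1 / 2) ^ n := by sorry

/-! ### Task R8: file `GaugeR/R8.lean` (see Gauge/M.lean and Gauge/NonNull.lean) -/

open Classical in
theorem not_null_of (f : ℕ → ℝ) (G : Set Oracle) (hG : 0 < ranO G) (Φ : Oracle → Oracle)
    (T : Set (List Bool)) (hΦ : ∀ B, ∀ y ∉ T, Φ B y = B y) (c : ℝ)
    (hT : ∀ N : ℕ, (((Finset.range N).filter (fun i => str i ∈ T)).card : ℝ) ≤ f N + c)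
    (O : Set Oracle) (hO : ∀ B ∈ G, Φ B ∈ O) : ¬ Null f O := by sorry

open Classical in
theorem ranO_cyl_le {I : Type} [Fintype I] (pos : I → List Bool) (hpos : Function.Injective pos)
    (E : (I → Bool) → Prop) :
    ranO {B | E (fun i => B (pos i))} ≤
      ENNReal.ofReal (Ex unif (fun a : I → Bool => if E a then (1 : ℝ) else 0)) := by sorry

/-! ### Task R9: file `GaugeR/R9.lean` (may import R8) -/

theorem ranO_good : 0 < ranO {B | ∀ x, HalfGood B x} := by sorry

/-! ### Task R10: file `GaugeR/R10.lean` -/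

theorem exists_stage (M : ℕ → Alg) (x : ℕ → List Bool)
    (hx : StrictMono (fun j => (x j).length))
    (hloc : ∀ j, ∀ A : Oracle, ∃ Q : Finset (List Bool), 2 * Q.card ≤ 2 ^ kk (x j) ∧
      (∀ q ∈ Q, q.length ≤ 2 * (x (j + 1)).length) ∧
      ∀ A' : Oracle, (∀ q ∈ Q, A' q = A q) → (M j).out A' (x j) = (M j).out A (x j)) :
    ∃ Φ : Oracle → Oracle, ∀ B, (∀ y ∉ blkR x, Φ B y = B y) ∧
      ∀ j, ((M j).out (Φ B) (x j) = some [true] → x j ∉ rpLang (Φ B)) ∧
        ((M j).out (Φ B) (x j) ≠ some [true] → HalfGood (Φ B) (x j)) := by sorry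

/-! ### Task R11: file `GaugeR/R11.lean` (may import Gauge.S) -/

open Classical in
theorem choose_seq (f : ℕ → ℝ) (hf : ¬ Cond1 f) (P Q : ℕ → Polynomial ℕ) :
    ∃ x : ℕ → List Bool, StrictMono (fun j => (x j).length) ∧
      (∀ j, 2 * (P j).eval (x j).length ≤ 2 ^ kk (x j)) ∧
      (∀ j, (Q j).eval (x j).length ≤ 2 * (x (j + 1)).length) ∧
      ∃ c : ℝ, ∀ N : ℕ,
        (((Finset.range N).filter (fun i => str i ∈ blkR x)).card : ℝ) ≤ f N + c := by sorry

/-! ### Task R12: file `GaugeR/R12.lean` -/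

theorem rpLang_rp {A : Oracle} (h : ∀ x, x ∈ rpLang A → HalfGood A x) : IsRP A (rpLang A) := by
  sorry

/-! ### Task R13: file `GaugeR/R13.lean` (may import Gauge2.Null) -/

/-- reduction of the statement on both inclusions to the statements on one of them -/
theorem not_cond1_min {f : ℕ → ℝ} (hf : ¬ Cond1 f) :
    ∃ g : ℕ → ℝ, (∀ N, g N ≤ f N) ∧ ¬ Cond1 g ∧ Cond g := by sorry

theorem Null.anti {f g : ℕ → ℝ} (hgf : ∀ N, g N ≤ f N) {X : Set Oracle} (h : Null f X) :
    Null g X := by sorry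

end Pool.Agent.H620R2.Gauge
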